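import Pool.Agent.Lib.MP_688fd0_co.SQ4.Small.Geo

/-!
PLACE, the counting part: the sum over `x ∈ Q₊` of the weight of `x T` is `|T| ord(w)` times the sum over the lines.
-/

set_option autoImplicit false

namespace Pool.Agent.Lib.MP_688fd0_co.SQ4.H53

open Pool.Agent.Lib.MP_688fd0_co.OSF Pool.Agent.Lib.MP_688fd0_co.SQ2 Pool.Agent.Lib.MP_688fd0_co.SQ3
open Pool.Agent.Lib.MP_688fd0_co.SQ4 Pool.Agent.Lib.MP_688fd0_co.SQ4.Small

variable {Q : Type} [Group Q] {B : Lb.{0, 0} Q} {a b : B.L} {eps : Q →* ℤˣ} {D : Subgroup Q} {z : Q} {k : ℕ}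

/-- Equality of the lines. -/
theorem lnU_iff (H : HypC B a b eps D z k) {x y : Q} : lnU H.up x = lnU H.up y ↔ Ln H.up x y := by
  constructor
  · intro h
    have h1 : Equiv.Perm.SameCycle H.up.U x y := Quotient.exact h
    obtain ⟨i, hi⟩ := h1
    rcases Int.eq_nat_or_neg i with ⟨n, rfl | rfl⟩
    · exact ⟨n, by rw [← hi, zpow_natCast]⟩
    · refine ln_symm H ⟨n, ?_⟩
      rw [← hi, zpow_neg, zpow_natCast, ai]
  · rintro ⟨t, rfl⟩
    exact Quotient.sound (⟨(t : ℤ), by rw [zpow_natCast]⟩ : Equiv.Perm.SameCycle H.up.U x ((H.up.U ^ t) x))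

theorem lnU_U (H : HypC B a b eps D z k) (x : Q) : lnU H.up (H.up.U x) = lnU H.up x :=
  ((lnU_iff H).2 ⟨1, by rw [pow_one]⟩).symm

section

variable [Fintype Q]

/-- The sums over the two halves are equal. -/
theorem sum_neg (H : HypC B a b eps D z k) {R : Type*} [AddCommMonoid R] (θ : Q → R)
    (hθ : ∀ y, θ (H.up.U y) = θ y) :
    ∑ y ∈ Finset.univ.filter (fun y => eps y = -1), θ y = ∑ y ∈ Finset.univ.filter (fun y => eps y = 1), θ y := by
  symm
  refine Finset.sum_bij' (fun y _ => H.up.U y) (fun y _ => H.up.U⁻¹ y) ?_ ?_ ?_ ?_ ?_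
  · intro y hy
    rw [Finset.mem_filter] at hy ⊢
    refine ⟨Finset.mem_univ _, ?_⟩
    rw [eps_U H, hy.2]
  · intro y hy
    rw [Finset.mem_filter] at hy ⊢
    refine ⟨Finset.mem_univ _, ?_⟩
    have h1 := eps_U H (H.up.U⁻¹ y)
    rw [ai, hy.2] at h1
    exact (neg_inj.1 h1).symm
  · intro y _
    exact H.up.U.symm_apply_apply y
  · intro y _
    exact ai _ _
  · intro y _
    exact (hθ y).symm

/-- The sum of the right translates. -/
theorem sum_right (H : HypC B a b eps D z k) {R : Type*} [AddCommMonoid R] (θ : Q → R)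
    (hθ : ∀ y, θ (H.up.U y) = θ y) (s : Q) :
    ∑ x ∈ Finset.univ.filter (fun x => eps x = 1), θ (x * s) = ∑ y ∈ Finset.univ.filter (fun y => eps y = 1), θ y := by
  have h : ∑ x ∈ Finset.univ.filter (fun x => eps x = 1), θ (x * s) =
      ∑ y ∈ Finset.univ.filter (fun y => eps y = eps s), θ y := by
    refine Finset.sum_bij' (fun y _ => y * s) (fun y _ => y * s⁻¹) ?_ ?_ ?_ ?_ ?_
    · intro y hy
      rw [Finset.mem_filter] at hy ⊢
      exact ⟨Finset.mem_univ _, by rw [map_mul, hy.2, one_mul]⟩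
    · intro y hy
      rw [Finset.mem_filter] at hy ⊢
      exact ⟨Finset.mem_univ _, by rw [map_mul, map_inv, hy.2, mul_inv_cancel]⟩
    · intro y _
      exact mul_inv_cancel_right _ _
    · intro y _
      exact inv_mul_cancel_right _ _
    · intro y _
      rfl
  rw [h]
  rcases Int.units_eq_one_or (eps s) with h1 | h1
  · rw [h1]
  · rw [h1]
    exact sum_neg H θ hθ

/-- The double sum. -/
theorem sum_place (H : HypC B a b eps D z k) {R : Type*} [AddCommMonoid R] (θ : Q → R)
    (hθ : ∀ y, θ (H.up.U y) = θ y) (T : Finset Q) :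
    ∑ x ∈ Finset.univ.filter (fun x => eps x = 1), ∑ s ∈ T, θ (x * s) =
      T.card • ∑ y ∈ Finset.univ.filter (fun y => eps y = 1), θ y := by
  rw [Finset.sum_comm, Finset.sum_congr rfl fun s _ => sum_right H θ hθ s, Finset.sum_const]

end

/-- The number of vertices of a line in the kernel. -/
theorem card_line (H : HypC B a b eps D z k) [Fintype Q] (l : Quotient (Equiv.Perm.SameCycle.setoid H.up.U))
    [DecidableEq (Quotient (Equiv.Perm.SameCycle.setoid H.up.U))] :
    ((Finset.univ.filter fun y : Q => eps y = 1).filter fun y => lnU H.up y = l).card =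
      orderOf (B.q a * (B.q b)⁻¹) := by
  classical
  obtain ⟨y, rfl⟩ := Quotient.exists_rep l
  obtain ⟨y₀, hy₀, h₀⟩ := ln_ker H y
  have e : (Quotient.mk _ y : Quotient (Equiv.Perm.SameCycle.setoid H.up.U)) = lnU H.up y₀ := (lnU_iff H).2 h₀
  rw [e]
  have h1 : ((Finset.univ.filter fun y : Q => eps y = 1).filter fun y => lnU H.up y = lnU H.up y₀) =
      (Finset.univ.filter fun g : Q => g ∈ Subgroup.zpowers (B.q a * (B.q b)⁻¹)).image fun g => y₀ * g := by
    ext v
    simp only [Finset.mem_filter, Finset.mem_univ, true_and, Finset.mem_image]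
    constructor
    · rintro ⟨hv, h⟩
      have h2 := (ln_iff H hy₀ hv).1 (ln_symm H ((lnU_iff H).1 h))
      exact ⟨_, h2, mul_inv_cancel_left _ _⟩
    · rintro ⟨g, hg, rfl⟩
      have hw : eps (B.q a * (B.q b)⁻¹) = 1 := by rw [map_mul, map_inv, H.ea, H.eb]; decide
      have hg1 : eps g = 1 := by
        have h3 : Subgroup.zpowers (B.q a * (B.q b)⁻¹) ≤ eps.ker := by
          rw [Subgroup.zpowers_le]
          exact hw
        exact h3 hg
      have hv : eps (y₀ * g) = 1 := by rw [map_mul, hy₀, hg1, one_mul]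
      refine ⟨hv, (lnU_iff H).2 (ln_symm H ((ln_iff H hy₀ hv).2 ?_))⟩
      rwa [inv_mul_cancel_left]
  rw [h1, Finset.card_image_of_injective _ (mul_right_injective y₀), ← Nat.card_zpowers, Nat.card_eq_fintype_card,
    Fintype.card_subtype]

/-- The sum over the kernel is a multiple of the sum over the lines. -/
theorem sum_lines (H : HypC B a b eps D z k) [Fintype Q] [Fintype (Quotient (Equiv.Perm.SameCycle.setoid H.up.U))]
    {R : Type*} [AddCommMonoid R] (θ : Quotient (Equiv.Perm.SameCycle.setoid H.up.U) → R) :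
    ∑ y ∈ Finset.univ.filter (fun y : Q => eps y = 1), θ (lnU H.up y) =
      orderOf (B.q a * (B.q b)⁻¹) • ∑ l, θ l := by
  classical
  rw [← Finset.sum_fiberwise (Finset.univ.filter fun y : Q => eps y = 1) (fun y => lnU H.up y), Finset.smul_sum]
  refine Finset.sum_congr rfl fun l _ => ?_
  rw [← card_line H l, ← Finset.sum_const]
  refine Finset.sum_congr rfl fun y hy => ?_
  rw [(Finset.mem_filter.1 hy).2]

/-- PLACE: an odd number of lines of the class `γ`; some translate of `T` has a weight which is not zero. -/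
theorem place (H : HypC B a b eps D z k) (cl d : Quotient (Equiv.Perm.SameCycle.setoid H.up.U) → Bool) (γ : Bool)
    (hodd : Odd (Nat.card {l // cl l = γ})) (T : Finset Q) (hT : T.Nonempty) :
    ∃ x, eps x = 1 ∧ ∑ s ∈ T, (wcl (fun y => cl (lnU H.up y)) (fun y => d (lnU H.up y)) γ (x * s) : ℤ) ≠ 0 := by
  classical
  have hfin := H.fin
  have _i : Fintype Q := Fintype.ofFinite Q
  have _j : Fintype (Quotient (Equiv.Perm.SameCycle.setoid H.up.U)) := Fintype.ofFinite _
  by_contra hno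
  push Not at hno
  have h1 := sum_place H (fun y => (wcl (fun y => cl (lnU H.up y)) (fun y => d (lnU H.up y)) γ y : ℤ))
    (fun y => by simp only [wcl, lnU_U]) T
  rw [Finset.sum_eq_zero fun x hx => hno x (Finset.mem_filter.1 hx).2] at h1
  have h2 : ∑ y ∈ Finset.univ.filter (fun y : Q => eps y = 1),
      (wcl (fun y => cl (lnU H.up y)) (fun y => d (lnU H.up y)) γ y : ℤ) =
        orderOf (B.q a * (B.q b)⁻¹) • ∑ l, (wcl cl d γ l : ℤ) :=
    sum_lines H (fun l => (wcl cl d γ l : ℤ))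
  rw [h2] at h1
  have h3 : Odd (∑ l, (wcl cl d γ l : ℤ)) := by
    have h4 : ∑ l, (wcl cl d γ l : ℤ) = ∑ l ∈ Finset.univ.filter (fun l => cl l = γ), (if d l then (1 : ℤ) else -1) := by
      rw [Finset.sum_filter]
      rfl
    have h5 := Finset.card_filter_add_card_filter_not (s := Finset.univ.filter (fun l => cl l = γ))
      (fun l => d l = true)
    rw [Nat.card_eq_fintype_card, Fintype.card_subtype, ← h5] at hodd
    rw [h4, Finset.sum_ite, Finset.sum_const, Finset.sum_const, nsmul_eq_mul, nsmul_eq_mul, mul_one]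
    obtain ⟨j, hj⟩ := hodd
    refine ⟨(j : ℤ) - ((Finset.univ.filter (fun l => cl l = γ)).filter (fun l => ¬ d l = true)).card, ?_⟩
    have h6 : (((Finset.univ.filter (fun l => cl l = γ)).filter (fun l => d l = true)).card : ℤ) +
        ((Finset.univ.filter (fun l => cl l = γ)).filter (fun l => ¬ d l = true)).card = 2 * j + 1 := by
      exact_mod_cast hj
    linear_combination h6
  have h4 : (∑ l, (wcl cl d γ l : ℤ)) ≠ 0 := by
    intro h
    rw [h] at h3
    exact absurd h3 (by decide)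
  have h5 := ord_pos H
  have h6 := hT.card_pos
  rw [nsmul_eq_mul, nsmul_eq_mul] at h1
  have h7 : ((T.card : ℤ) * ((orderOf (B.q a * (B.q b)⁻¹) : ℤ) * ∑ l, (wcl cl d γ l : ℤ))) ≠ 0 :=
    mul_ne_zero (by exact_mod_cast h6.ne') (mul_ne_zero (by exact_mod_cast h5.ne') h4)
  exact h7 h1.symm

/-- The weight of a set is small. -/
theorem abs_sum_wcl {α κ : Type*} [DecidableEq κ] (cl : α → κ) (d : α → Bool) (γ : κ) {β : Type*} (T : Finset β)
    (f : β → α) : |∑ s ∈ T, (wcl cl d γ (f s) : ℤ)| ≤ T.card := by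
  refine (Finset.abs_sum_le_sum_abs _ _).trans ?_
  have h : ∀ s ∈ T, |(wcl cl d γ (f s) : ℤ)| ≤ 1 := by
    intro s _
    unfold wcl
    split_ifs <;> simp
  refine (Finset.sum_le_sum h).trans ?_
  simp

/-- PLACE modulo `p`. -/
theorem place_p (H : HypC B a b eps D z k) (cl d : Quotient (Equiv.Perm.SameCycle.setoid H.up.U) → Bool) (γ : Bool)
    (hodd : Odd (Nat.card {l // cl l = γ})) (T : Finset Q) (hT : T.Nonempty) (p : ℕ) (hp : T.card < p) :
    ∃ x, eps x = 1 ∧
      ∑ s ∈ T, (wcl (fun y => cl (lnU H.up y)) (fun y => d (lnU H.up y)) γ (x * s) : ZMod p) ≠ 0 := by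
  obtain ⟨x, hx, h⟩ := place H cl d γ hodd T hT
  refine ⟨x, hx, fun h0 => h ?_⟩
  have h1 : ((∑ s ∈ T, (wcl (fun y => cl (lnU H.up y)) (fun y => d (lnU H.up y)) γ (x * s) : ℤ) : ℤ) : ZMod p) = 0 := by
    rw [← h0, Int.cast_sum]
    refine Finset.sum_congr rfl fun s _ => ?_
    unfold wcl
    split_ifs <;> simp
  rw [ZMod.intCast_zmod_eq_zero_iff_dvd] at h1
  refine Int.eq_zero_of_abs_lt_dvd h1 ?_
  exact (abs_sum_wcl _ _ γ T fun s => x * s).trans_lt (by exact_mod_cast hp)

end Pool.Agent.Lib.MP_688fd0_co.SQ4.H53
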