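import Pool.Agent.Lib.MP_688fd0_co.SQ4.IfaceV2
import Pool.Agent.Lib.MP_688fd0_co.SQ4.H41.Ctx
import Pool.Agent.Lib.MP_688fd0_co.SQ4.H53.Place
import Pool.Agent.Lib.MP_688fd0_co.SQ4.Small.Ins

/-!
PLK: places for STK. The sum of the weights over a coset of a normal-by-`w` subgroup of `D`, and strands near a line.
-/

set_option autoImplicit false

namespace Pool.Agent.Lib.MP_688fd0_co.SQ4.CV

open Pool.Agent.Lib.MP_688fd0_co.OSF Pool.Agent.Lib.MP_688fd0_co.SQ2 Pool.Agent.Lib.MP_688fd0_co.SQ3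
open Pool.Agent.Lib.MP_688fd0_co.SQ4

namespace Plc

theorem sumOn_eq {Q R : Type} [AddCommMonoid R] (F : Finset Q) (P : Q → Prop) [DecidablePred P] (w : Q → R) :
    sumOn F P w = ∑ v ∈ F.filter P, w v := by
  unfold sumOn
  rw [Finset.sum_filter]
  refine Finset.sum_congr rfl fun v _ => ?_
  by_cases h : P v
  · rw [if_pos h, if_pos h]
  · rw [if_neg h, if_neg h]

section

variable {Q : Type} [Group Q] {B : Lb.{0, 0} Q} {a b : B.L} {eps : Q →* ℤˣ} {D : Subgroup Q} {z : Q} {k : ℕ}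
  (H : HypC B a b eps D z k)

include H

/-- A function which is constant on the lines. -/
theorem line_const {α : Type*} {θ : Q → α} (hθ : ∀ y, θ (H.up.U y) = θ y) {x y : Q}
    (h : lnU H.up x = lnU H.up y) : θ x = θ y := by
  obtain ⟨t, rfl⟩ := (H53.lnU_iff H).1 h
  clear h
  induction t with
  | zero => rfl
  | succ t ih =>
    rw [pow_succ', Equiv.Perm.mul_apply, hθ]
    exact ih

theorem lnU_rf (x : Q) : lnU H.up (rfC eps (B.q a) x) = lnU H.up x := by
  rw [H53.lnU_iff H]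
  exact ⟨_, (Small.rf_U H x).symm⟩

theorem eps_rf (x : Q) : eps (rfC eps (B.q a) x) = 1 := by
  unfold rfC
  split_ifs with h
  · exact h
  · rw [map_mul, map_inv, Small.eps_neg h, H.ea]; decide

theorem eps_wz (j : ℤ) : eps (wC B a b ^ j) = 1 := by rw [map_zpow, Ct.eps_w H, one_zpow]

theorem lnU_w {y : Q} (hy : eps y = 1) (j : ℤ) : lnU H.up (y * wC B a b ^ j) = lnU H.up y := by
  symm
  rw [Ct.lnU_iff' H hy (by rw [map_mul, hy, eps_wz H, one_mul])]
  exact ⟨j, rfl⟩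

/-- The strand of a frontier with a given retraction. -/
theorem ex_strand {c W : ℕ} {x : Q} {F : Finset Q} (hF : FrC H.up D k c W x F) {v : Q} (hv : v ∈ F) {κ : Q}
    (hκ : κ ∈ D) : ∃ u ∈ F, rfC eps (B.q a) u = rfC eps (B.q a) v * κ := by
  refine ⟨shf eps (B.q a) κ v, ?_, rf_shf H hκ v⟩
  have h1 : v⁻¹ * shf eps (B.q a) κ v ∈ D := sh_shf H hκ v
  have h2 := hF.inv v hv _ h1
  rwa [mul_inv_cancel_left] at h2

/-- The sum over the strands of a coset of a subgroup of `D`. -/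
theorem sumOn_coset [Fintype Q] [DecidableEq Q] {c W : ℕ} (hW : 1 ≤ W) {x : Q} {F : Finset Q}
    (hF : FrC H.up D k c W x F) {v : Q} (hv : v ∈ F) {R : Type} [AddCommMonoid R] {θ : Q → R}
    (hθ : ∀ y, θ (H.up.U y) = θ y) (K : Subgroup Q) (hK : K ≤ D) [DecidablePred (· ∈ K)] :
    sumOn F (fun u => (rfC eps (B.q a) v)⁻¹ * rfC eps (B.q a) u ∈ K) θ =
      ∑ κ ∈ Finset.univ.filter (fun κ => κ ∈ K), θ (rfC eps (B.q a) v * κ) := by
  classical
  rw [sumOn_eq]
  refine Finset.sum_nbij (fun u => (rfC eps (B.q a) v)⁻¹ * rfC eps (B.q a) u) ?_ ?_ ?_ ?_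
  · intro u hu
    rw [Finset.mem_filter] at hu ⊢
    exact ⟨Finset.mem_univ _, hu.2⟩
  · intro u hu u' hu' h
    rw [Finset.mem_coe, Finset.mem_filter] at hu hu'
    exact Small.rf_inj H hW hF.disj hu.1 hu'.1 (mul_left_cancel h)
  · intro κ hκ
    rw [Finset.mem_coe, Finset.mem_filter] at hκ
    obtain ⟨u, hu, h⟩ := ex_strand H hF hv (hK hκ.2)
    refine ⟨u, ?_, ?_⟩
    · rw [Finset.mem_coe, Finset.mem_filter]
      refine ⟨hu, ?_⟩
      rw [h, inv_mul_cancel_left]
      exact hκ.2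
    · show (rfC eps (B.q a) v)⁻¹ * rfC eps (B.q a) u = κ
      rw [h, inv_mul_cancel_left]
  · intro u _
    show θ u = θ (rfC eps (B.q a) v * ((rfC eps (B.q a) v)⁻¹ * rfC eps (B.q a) u))
    rw [mul_inv_cancel_left]
    exact (line_const H hθ (lnU_rf H u)).symm

/-- The sum over a coset does not change along a line. -/
theorem sum_w {R : Type} [AddCommMonoid R] {θ : Q → R} (hθ : ∀ y, θ (H.up.U y) = θ y) (T : Finset Q)
    (hT : ∀ t ∈ T, eps t = 1) (j : ℤ) (hc : ∀ t ∈ T, wC B a b ^ j * t * wC B a b ^ (-j) ∈ T) {y : Q} (hy : eps y = 1) :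
    ∑ t ∈ T, θ (y * wC B a b ^ j * t) = ∑ t ∈ T, θ (y * t) := by
  classical
  have hinj : Set.InjOn (fun t : Q => wC B a b ^ j * t * wC B a b ^ (-j)) T := by
    intro s _ t _ h
    exact mul_left_cancel (mul_right_cancel h)
  have himg : T.image (fun t : Q => wC B a b ^ j * t * wC B a b ^ (-j)) = T := by
    refine Finset.eq_of_subset_of_card_le ?_ ?_
    · intro t ht
      obtain ⟨s, hs, rfl⟩ := Finset.mem_image.1 ht
      exact hc s hs
    · rw [Finset.card_image_of_injOn hinj]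
  nth_rw 2 [← himg]
  rw [Finset.sum_image hinj]
  refine Finset.sum_congr rfl fun t ht => ?_
  apply line_const H hθ
  have e : y * wC B a b ^ j * t = y * (wC B a b ^ j * t * wC B a b ^ (-j)) * wC B a b ^ j := by
    rw [zpow_neg]; group
  rw [e, lnU_w H]
  rw [map_mul, map_mul, map_mul, eps_wz H, eps_wz H, hT t ht, hy]
  rfl

end

section kt

variable {Q : Type} [Group Q] {B : Lb.{0, 0} Q} {a b : B.L} {eps : Q →* ℤˣ} {D : Subgroup Q} {z : Q} {k : ℕ}
  (H : HypC B a b eps D z k)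

theorem tp_mem (H : HypC B a b eps D z k) {q : B.L × B.L} (hq : Nr1 B a b D q) : tp B a b q ∈ D := by
  obtain ⟨⟨h1, h2⟩, -⟩ := hq
  have e : tp B a b q = B.q a * (((B.q a)⁻¹ * B.q q.1) * ((B.q b)⁻¹ * B.q q.2)⁻¹) * (B.q a)⁻¹ := by
    unfold tp wC
    group
  rw [e]
  exact H.nD.conj_mem _ (D.mul_mem h1 (D.inv_mem h2)) _

theorem KT_le (H : HypC B a b eps D z k) {q : B.L × B.L} (hq : Nr1 B a b D q) : KT B a b q ≤ D := by
  unfold KT
  rw [Subgroup.closure_le]
  rintro _ ⟨i, rfl⟩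
  have h1 := H.nD.conj_mem _ (tp_mem H hq) (wC B a b ^ i)
  rwa [← zpow_neg] at h1

theorem KT_conj {q : B.L × B.L} {t : Q} (ht : t ∈ KT B a b q) (j : ℤ) :
    wC B a b ^ j * t * wC B a b ^ (-j) ∈ KT B a b q := by
  unfold KT at ht
  induction ht using Subgroup.closure_induction with
  | mem x hx =>
    obtain ⟨i, rfl⟩ := hx
    refine Subgroup.subset_closure ⟨j + i, ?_⟩
    rw [zpow_add, zpow_neg, zpow_neg, zpow_neg, zpow_add]
    group
  | one =>
    rw [mul_one, ← zpow_add, add_neg_cancel, zpow_zero]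
    exact Subgroup.one_mem _
  | mul x y _ _ hx hy =>
    have h1 := Subgroup.mul_mem _ hx hy
    have e : wC B a b ^ j * x * wC B a b ^ (-j) * (wC B a b ^ j * y * wC B a b ^ (-j)) =
        wC B a b ^ j * (x * y) * wC B a b ^ (-j) := by
      rw [zpow_neg]; group
    rwa [e] at h1
  | inv x _ hx =>
    have h1 := Subgroup.inv_mem _ hx
    have e : (wC B a b ^ j * x * wC B a b ^ (-j))⁻¹ = wC B a b ^ j * x⁻¹ * wC B a b ^ (-j) := by
      rw [zpow_neg]; group
    rwa [e] at h1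

end kt

/-! ### Strands near a line -/

section near

variable {Q : Type} [Group Q] {B : Lb.{0, 0} Q} {a b : B.L} {eps : Q →* ℤˣ} {D : Subgroup Q} {z : Q} {k : ℕ}
  (H : HypC B a b eps D z k)

/-- `g` is a word of length at most `m`, up to `D`. -/
def Shrt (B : Lb.{0, 0} Q) (D : Subgroup Q) (m : ℕ) (g : Q) : Prop :=
  ∃ l : List B.L, l.length ≤ m ∧ (B.fin 1 l)⁻¹ * g ∈ D

include H

omit H in
theorem shrt_one (m : ℕ) : Shrt B D m 1 := ⟨[], Nat.zero_le _, by
  show (1 : Q)⁻¹ * 1 ∈ D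
  rw [inv_one, one_mul]; exact D.one_mem⟩

theorem shrt_mul {m n : ℕ} {g h : Q} (hg : Shrt B D m g) (hh : Shrt B D n h) : Shrt B D (m + n) (g * h) := by
  obtain ⟨l, hl, h1⟩ := hg
  obtain ⟨l', hl', h2⟩ := hh
  refine ⟨l ++ l', by rw [List.length_append]; omega, ?_⟩
  have e1 : B.fin 1 (l ++ l') = B.fin 1 l * B.fin 1 l' := by
    rw [fin_append]
    have := fin_tr (B := B) (B.fin 1 l) 1 l'
    rwa [mul_one] at this
  have e2 : (B.fin 1 (l ++ l'))⁻¹ * (g * h) =
      (B.fin 1 l')⁻¹ * h * (h⁻¹ * ((B.fin 1 l)⁻¹ * g) * h⁻¹⁻¹) := by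
    rw [e1]; group
  rw [e2]
  exact D.mul_mem h2 (H.nD.conj_mem _ h1 h⁻¹)

theorem shrt_gn {h : Q} (hh : h ∈ Ct.Gn B a b eps D z k) : Shrt B D 2 h := by
  rcases hh with hh | ⟨t, i, ht, hh⟩
  · refine ⟨[], by simp, ?_⟩
    show (1 : Q)⁻¹ * h ∈ D
    rw [inv_one, one_mul]
    exact Ct.SI_mem H hh
  · have hs := Ct.eps_sg H ht.1
    rcases hh with hh | hh
    · refine ⟨[t, B.inv a], by simp, ?_⟩
      have e : B.fin 1 [t, B.inv a] = sg B a t := by
        show (1 : Q) * B.q t * B.q (B.inv a) = _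
        rw [B.q_inv, one_mul]
        rfl
      rw [e, hh]
      exact Ct.comm_mem H hs i
    · refine ⟨[a, B.inv t], by simp, ?_⟩
      have e : B.fin 1 [a, B.inv t] = (sg B a t)⁻¹ := by
        show (1 : Q) * B.q a * B.q (B.inv t) = _
        unfold sg
        rw [B.q_inv]
        group
      rw [e, hh]
      have h1 := Ct.comm_mem H (g := (sg B a t)⁻¹) (by rw [map_inv, hs, inv_one]) i
      have h2 : wC B a b ^ i * (sg B a t)⁻¹ * wC B a b ^ (-i) =
          (wC B a b ^ i * sg B a t * wC B a b ^ (-i))⁻¹ := by group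
      rwa [h2] at h1

/-- A leaf is on the line of `x g`, `g` short. -/
theorem ed_shrt {N : ℕ} {x s : Q} (hx : eps x = 1) (h : Ed B a b eps D z k N x s) :
    ∃ g, eps g = 1 ∧ Shrt B D 2 g ∧ lnU H.up s = lnU H.up (x * g) := by
  rcases h with ⟨q, hq, rfl⟩ | ⟨l, n, i, hl, -, h⟩
  · exact ⟨q, Ct.eps_Gn H (Or.inl hq), shrt_gn H (Or.inl hq), rfl⟩
  · rcases h with h | h
    · have hG : wC B a b ^ i * sg B a l * wC B a b ^ (-i) ∈ Ct.Gn B a b eps D z k := Or.inr ⟨l, i, hl, Or.inl rfl⟩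
      refine ⟨_, Ct.eps_Gn H hG, shrt_gn H hG, ?_⟩
      rw [← h, lnU_w H (eps_rf H s), lnU_rf H]
    · have hG : (wC B a b ^ i * sg B a l * wC B a b ^ (-i))⁻¹ ∈ Ct.Gn B a b eps D z k :=
        Or.inr ⟨l, i, hl, Or.inr rfl⟩
      have hG' := Ct.Gn_conj H hG n
      refine ⟨_, Ct.eps_Gn H hG', shrt_gn H hG', ?_⟩
      have e : rfC eps (B.q a) s = x * (wC B a b ^ n * (wC B a b ^ i * sg B a l * wC B a b ^ (-i))⁻¹ *
          wC B a b ^ (-n)) * wC B a b ^ n := by
        have h1 : rfC eps (B.q a) s = x * wC B a b ^ n * (wC B a b ^ i * sg B a l * wC B a b ^ (-i))⁻¹ := by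
          rw [h, mul_inv_cancel_right]
        rw [h1, zpow_neg]
        group
      rw [← lnU_rf H s, e, lnU_w H]
      rw [map_mul, hx, Ct.eps_Gn H hG', one_mul]

omit H in
theorem egc_gn {x y : Q} (h : EgC B a b eps D z k x y) : ∃ g ∈ Ct.Gn B a b eps D z k, y = x * g := by
  rcases h with ⟨q, hq, rfl⟩ | ⟨l, i, hl, h | h⟩
  · exact ⟨q, Or.inl hq, rfl⟩
  · exact ⟨_, Or.inr ⟨l, i, hl, Or.inl rfl⟩, h⟩
  · exact ⟨_, Or.inr ⟨l, i, hl, Or.inr rfl⟩, by rw [h, mul_inv_cancel_right]⟩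

/-- The line of a neighbour of the line of `x`, `s₁` or `s₂` has a strand in the frontier. -/
theorem near_strand {c W N : ℕ} {x v : Q} {F : Finset Q} (hx : eps x = 1) (hF : FrC H.up D k c W x F)
    (hv : v = x ∨ Ed B a b eps D z k N x v) {y' y : Q} (hy' : eps y' = 1) (hl : lnU H.up y' = lnU H.up v)
    (h : EgC B a b eps D z k y' y) : ∃ u ∈ F, lnU H.up u = lnU H.up y := by
  obtain ⟨g, hg, hgs, hgl⟩ : ∃ g, eps g = 1 ∧ Shrt B D 2 g ∧ lnU H.up v = lnU H.up (x * g) := by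
    rcases hv with rfl | hv
    · exact ⟨1, map_one _, shrt_one 2, by rw [mul_one]⟩
    · exact ed_shrt H hx hv
  obtain ⟨h', hh', rfl⟩ := egc_gn h
  have hxg : eps (x * g) = 1 := by rw [map_mul, hx, hg, one_mul]
  obtain ⟨j, hj⟩ := (Ct.lnU_iff' H hxg hy').1 ((hl.trans hgl).symm)
  have hG := Ct.Gn_conj H hh' j
  obtain ⟨l, hll, hlD⟩ := shrt_mul H hgs (shrt_gn H hG)
  obtain ⟨o, -, ho⟩ := Ct.shF H hF (l := l) (y := x * (g * (wC B a b ^ j * h' * wC B a b ^ (-j)))) hll (by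
    have := fin_tr (B := B) x 1 l
    rw [mul_one] at this
    rw [this]
    have e : (x * B.fin 1 l)⁻¹ * (x * (g * (wC B a b ^ j * h' * wC B a b ^ (-j)))) =
        (B.fin 1 l)⁻¹ * (g * (wC B a b ^ j * h' * wC B a b ^ (-j))) := by group
    rw [e]
    exact hlD)
  refine ⟨_, ho, ?_⟩
  rw [Ct.lnU_z]
  have e : y' * h' = x * (g * (wC B a b ^ j * h' * wC B a b ^ (-j))) * wC B a b ^ j := by
    rw [hj, zpow_neg]; group
  rw [e, lnU_w H]
  rw [map_mul, map_mul, hx, hg, Ct.eps_Gn H hG]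
  rfl

end near

end Plc

open Plc in
/-- PLK. -/
theorem plK : PlKS := by
  classical
  intro Q _ _ B a b eps D z k H c W _ _ _ hW d cl N x s₁ s₂ F rk hC γ hγ p hp h4 q hq
  have hfin := H.fin
  have _i : Fintype Q := Fintype.ofFinite Q
  have hW1 : 1 ≤ W := by
    refine le_trans ?_ hW
    unfold lamC
    exact Nat.one_le_iff_ne_zero.2 (Nat.mul_ne_zero (by positivity) (by omega))
  have hKD := KT_le H hq
  set θ : Q → ZMod p := wcl cl d γ with hθd
  have hθ : ∀ y, θ (H.up.U y) = θ y := by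
    intro y
    rw [hθd]
    unfold wcl
    rw [hC.c_line, hC.d_line]
  set T : Finset Q := Finset.univ.filter (fun κ => κ ∈ KT B a b q) with hT
  have hTm : ∀ t, t ∈ T ↔ t ∈ KT B a b q := fun t => by rw [hT, Finset.mem_filter]; simp
  have hTe : ∀ t ∈ T, eps t = 1 := fun t ht => H.leD (hKD ((hTm t).1 ht))
  have hTn : T.Nonempty := ⟨1, (hTm 1).2 (Subgroup.one_mem _)⟩
  have hTc : T.card < p := by
    have h1 : T.card ≤ Nat.card D := by
      rw [Nat.card_eq_fintype_card, Fintype.card_subtype]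
      refine Finset.card_le_card fun t ht => ?_
      rw [Finset.mem_filter]
      exact ⟨Finset.mem_univ _, hKD ((hTm t).1 ht)⟩
    have h2 := Nat.le_of_dvd H.kpos H.card
    have := H.kpos
    omega
  have hstr : ∀ i, ∀ v ∈ F i, (∑ κ ∈ T, θ (rfC eps (B.q a) v * κ)) ≠ 0 →
      ∃ i, ∃ v₁ ∈ F i, sumOn (F i) (fun v => (rfC eps (B.q a) v₁)⁻¹ * rfC eps (B.q a) v ∈ KT B a b q) θ ≠ 0 := by
    intro i v hv h
    refine ⟨i, v, hv, ?_⟩
    rw [sumOn_coset H hW1 (hC.fr i) hv hθ _ hKD]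
    exact h
  cases γ with
  | false =>
    have hcL : ∀ x y : Q, (Equiv.Perm.SameCycle.setoid H.up.U) x y → cl x = cl y := fun x y h =>
      line_const H hC.c_line (Quotient.sound h)
    have hdL : ∀ x y : Q, (Equiv.Perm.SameCycle.setoid H.up.U) x y → d x = d y := fun x y h =>
      line_const H hC.d_line (Quotient.sound h)
    have hodd : Odd (Nat.card {l // (Quotient.lift cl hcL : _ → Bool) l = false}) := by
      have e : ∀ l : Quotient (Equiv.Perm.SameCycle.setoid H.up.U),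
          (∃ y, cl y = false ∧ lnU H.up y = l) ↔ (Quotient.lift cl hcL : _ → Bool) l = false := by
        intro l
        constructor
        · rintro ⟨y, h1, rfl⟩
          exact h1
        · intro h
          obtain ⟨y, rfl⟩ := Quotient.exists_rep l
          exact ⟨y, h, rfl⟩
      rw [← Nat.card_congr (Equiv.subtypeEquivRight e)]
      exact hC.odd
    obtain ⟨y, hy, hs⟩ := H53.place_p H (Quotient.lift cl hcL) (Quotient.lift d hdL) false hodd T hTn p hTc
    have hs' : ∑ s ∈ T, θ (y * s) ≠ 0 := hs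
    obtain ⟨κ, hκ, hne⟩ := Finset.exists_ne_zero_of_sum_ne_zero hs'
    have hcl : cl (y * κ) = false := by
      by_contra hc
      apply hne
      rw [hθd]
      unfold wcl
      rw [if_neg hc]
    have hyκ : eps (y * κ) = 1 := by rw [map_mul, hy, hTe κ hκ, one_mul]
    -- the sum at any strand on this line
    have hgo : ∀ i, ∀ v ∈ F i, lnU H.up (y * κ) = lnU H.up v →
        ∃ i, ∃ v₁ ∈ F i, sumOn (F i) (fun v => (rfC eps (B.q a) v₁)⁻¹ * rfC eps (B.q a) v ∈ KT B a b q) θ ≠ 0 := by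
      intro i v hv hl
      refine hstr i v hv ?_
      obtain ⟨j, hj⟩ := (Ct.lnU_iff' H hyκ (eps_rf H v)).1 (hl.trans (lnU_rf H v).symm)
      have h1 := sum_w H hθ T hTe j (fun t ht => (hTm _).2 (KT_conj ((hTm t).1 ht) j)) hyκ
      rw [hj, h1]
      have h2 : ∑ t ∈ T, θ (y * κ * t) = ∑ t ∈ T, θ (y * t) := by
        refine Finset.sum_nbij' (fun t => κ * t) (fun t => κ⁻¹ * t) ?_ ?_ ?_ ?_ ?_
        · intro t ht
          exact (hTm _).2 (Subgroup.mul_mem _ ((hTm κ).1 hκ) ((hTm t).1 ht))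
        · intro t ht
          exact (hTm _).2 (Subgroup.mul_mem _ (Subgroup.inv_mem _ ((hTm κ).1 hκ)) ((hTm t).1 ht))
        · intro t _
          exact inv_mul_cancel_left _ _
        · intro t _
          exact mul_inv_cancel_left _ _
        · intro t _
          show θ (y * κ * t) = θ (y * (κ * t))
          rw [mul_assoc]
      rw [h2]
      exact hs'
    obtain ⟨i, hi | hi | hi⟩ := hC.cov _ hcl
    · exact hgo i _ (hC.fr i).fx hi
    · exact hgo i _ (hC.f₁ i) hi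
    · exact hgo i _ (hC.f₂ i) hi
  | true =>
    obtain ⟨y, y', hy, hy', hye, hye', hE⟩ := hC.adj hγ
    obtain ⟨i, hi⟩ := hC.cov _ hy'
    obtain ⟨v, hvF, hvl⟩ : ∃ v ∈ F i, lnU H.up v = lnU H.up y := by
      rcases hi with hi | hi | hi
      · exact near_strand H (N := c + 2) (hC.ex i) (hC.fr i) (Or.inl rfl) hye' hi hE
      · exact near_strand H (hC.ex i) (hC.fr i) (Or.inr (hC.e₁ i)) hye' hi hE
      · exact near_strand H (hC.ex i) (hC.fr i) (Or.inr (hC.e₂ i)) hye' hi hE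
    refine hstr i v hvF ?_
    have hclv : cl (rfC eps (B.q a) v) = true := by
      rw [line_const H hC.c_line ((lnU_rf H v).trans hvl)]
      exact hy
    -- all weights are equal
    have hval : ∀ κ ∈ T, θ (rfC eps (B.q a) v * κ) =
        if cl (rfC eps (B.q a) v * κ) = true then (if d (rfC eps (B.q a) v) = true then (1 : ZMod p) else -1) else 0 := by
      intro κ _
      rw [hθd]
      unfold wcl
      by_cases h : cl (rfC eps (B.q a) v * κ) = true
      · rw [if_pos h, if_pos h, line_const H hC.d_line (hC.one _ _ h hclv)]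
      · rw [if_neg h, if_neg h]
    rw [Finset.sum_congr rfl hval, ← Finset.sum_filter, Finset.sum_const, nsmul_eq_mul]
    refine mul_ne_zero ?_ ?_
    · rw [Ne, CharP.cast_eq_zero_iff (ZMod p) p]
      have h1 : 0 < (T.filter fun κ => cl (rfC eps (B.q a) v * κ) = true).card :=
        Finset.card_pos.2 ⟨1, Finset.mem_filter.2 ⟨(hTm 1).2 (Subgroup.one_mem _), by rw [mul_one]; exact hclv⟩⟩
      have h2 := Finset.card_filter_le T fun κ => cl (rfC eps (B.q a) v * κ) = true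
      exact Nat.not_dvd_of_pos_of_lt h1 (by omega)
    · have := hp.out.one_lt
      have : Fact (1 < p) := ⟨this⟩
      split_ifs
      · exact one_ne_zero
      · exact neg_ne_zero.2 one_ne_zero

end Pool.Agent.Lib.MP_688fd0_co.SQ4.CV
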