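import Pool.Agent.Lib.MP_688fd0_co.SQ4.H53.PlK

/-!
COUNTX, the abstract part: moves on `Z × Q` (`Z` = the sheets), the weight of the translates of a component.
-/

set_option autoImplicit false

namespace Pool.Agent.Lib.MP_688fd0_co.SQ4.CV

open Pool.Agent.Lib.MP_688fd0_co.OSF Pool.Agent.Lib.MP_688fd0_co.SQ2 Pool.Agent.Lib.MP_688fd0_co.SQ3
open Pool.Agent.Lib.MP_688fd0_co.SQ4

namespace Cnt

/-- Moves between the sheets `Z`. -/
structure MvS {Q : Type} [Group Q] (B : Lb.{0, 0} Q) (a b : B.L) (eps : Q →* ℤˣ) (Z : Type) where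
  mv : Z → Z → Set Q
  sym : ∀ {β β' g}, g ∈ mv β β' → g⁻¹ ∈ mv β' β
  ker : ∀ {β β' g}, g ∈ mv β β' → eps g = 1
  cj : ∀ {β β' g} (j : ℤ), g ∈ mv β β' → wC B a b ^ j * g * wC B a b ^ (-j) ∈ mv β β'
  rot : ∃ t : Q, t ≠ 1 ∧ ∀ β, t ∈ mv β β

section

variable {Q : Type} [Group Q] {B : Lb.{0, 0} Q} {a b : B.L} {eps : Q →* ℤˣ} {D : Subgroup Q} {z : Q} {k : ℕ}
  {Z : Type} (M : MvS B a b eps Z)

/-- One move. -/
def Stp (p p' : Z × Q) : Prop := p.2⁻¹ * p'.2 ∈ M.mv p.1 p'.1

/-- Reachable pairs. -/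
def Rch (p p' : Z × Q) : Prop := Relation.ReflTransGen (Stp M) p p'

variable {M}

theorem stp_symm {p p' : Z × Q} (h : Stp M p p') : Stp M p' p := by
  have h1 := M.sym h
  rwa [mul_inv_rev, inv_inv] at h1

theorem rch_symm {p p' : Z × Q} (h : Rch M p p') : Rch M p' p := by
  induction h with
  | refl => exact Relation.ReflTransGen.refl
  | tail _ h1 ih => exact Relation.ReflTransGen.head (stp_symm h1) ih

theorem stp_lm {p p' : Z × Q} (g : Q) (h : Stp M p p') : Stp M (p.1, g * p.2) (p'.1, g * p'.2) := by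
  have e : (g * p.2)⁻¹ * (g * p'.2) = p.2⁻¹ * p'.2 := by group
  show (g * p.2)⁻¹ * (g * p'.2) ∈ M.mv p.1 p'.1
  rw [e]
  exact h

theorem rch_lm {p p' : Z × Q} (g : Q) (h : Rch M p p') : Rch M (p.1, g * p.2) (p'.1, g * p'.2) := by
  induction h with
  | refl => exact Relation.ReflTransGen.refl
  | tail _ h1 ih => exact Relation.ReflTransGen.tail ih (stp_lm g h1)

theorem stp_rw {p p' : Z × Q} (j : ℤ) (h : Stp M p p') :
    Stp M (p.1, p.2 * wC B a b ^ j) (p'.1, p'.2 * wC B a b ^ j) := by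
  have h1 := M.cj (-j) h
  have e : wC B a b ^ (-j) * (p.2⁻¹ * p'.2) * wC B a b ^ (- -j) =
      (p.2 * wC B a b ^ j)⁻¹ * (p'.2 * wC B a b ^ j) := by
    rw [neg_neg, zpow_neg]; group
  rwa [e] at h1

theorem rch_rw {p p' : Z × Q} (j : ℤ) (h : Rch M p p') :
    Rch M (p.1, p.2 * wC B a b ^ j) (p'.1, p'.2 * wC B a b ^ j) := by
  induction h with
  | refl => exact Relation.ReflTransGen.refl
  | tail _ h1 ih => exact Relation.ReflTransGen.tail ih (stp_rw j h1)

theorem rch_ker {p p' : Z × Q} (h : Rch M p p') : eps p'.2 = eps p.2 := by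
  induction h with
  | refl => rfl
  | tail _ h1 ih =>
    have h2 := M.ker h1
    rw [map_mul, map_inv, inv_mul_eq_one] at h2
    rw [← ih, h2]

/-- The translates of a component. -/
theorem rch_tr {β₀ : Z} {j₀ : Z × Q} (h₀ : Rch M (β₀, 1) j₀) (y : Q) (l : ℤ) (p : Z × Q) :
    Rch M (j₀.1, y * j₀.2 * wC B a b ^ l) p ↔ Rch M (β₀, 1) (p.1, y⁻¹ * p.2 * wC B a b ^ (-l)) := by
  have e1 : ∀ g : Q, y⁻¹ * (y * g * wC B a b ^ l) * wC B a b ^ (-l) = g := by
    intro g
    rw [zpow_neg]; group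
  have e2 : ∀ g : Q, y * (y⁻¹ * g * wC B a b ^ (-l)) * wC B a b ^ l = g := by
    intro g
    rw [zpow_neg]; group
  constructor
  · intro h
    have h1 := rch_rw (-l) (rch_lm y⁻¹ h)
    dsimp only at h1
    rw [e1] at h1
    exact Relation.ReflTransGen.trans h₀ h1
  · intro h
    have h1 : Rch M j₀ (p.1, y⁻¹ * p.2 * wC B a b ^ (-l)) := Relation.ReflTransGen.trans (rch_symm h₀) h
    have h2 := rch_rw l (rch_lm y h1)
    dsimp only at h2
    rw [e2] at h2
    exact h2

end

section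

variable {Q : Type} [Group Q] {B : Lb.{0, 0} Q} {a b : B.L} {eps : Q →* ℤˣ} {D : Subgroup Q} {z : Q} {k : ℕ}
  (H : HypC B a b eps D z k) {Z : Type} (M : MvS B a b eps Z)

open Classical in
/-- The component of `(β₀, 1)`. -/
noncomputable def VV [Fintype Q] [Fintype Z] (β₀ : Z) : Finset (Z × Q) := Finset.univ.filter fun p => Rch M (β₀, 1) p

theorem mem_VV [Fintype Q] [Fintype Z] {β₀ : Z} {p : Z × Q} : p ∈ VV M β₀ ↔ Rch M (β₀, 1) p := by
  classical
  unfold VV
  rw [Finset.mem_filter]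
  exact ⟨fun h => h.2, fun h => ⟨Finset.mem_univ _, h⟩⟩

/-- The sum over the kernel is not zero. -/
theorem sum_ker_ne [Fintype Q] {d cl : Q → Bool} (hd : ∀ y, d (H.up.U y) = d y) (hc : ∀ y, cl (H.up.U y) = cl y)
    (hodd : Odd (Nat.card {l : Quotient (Equiv.Perm.SameCycle.setoid H.up.U) // ∃ y, cl y = false ∧ lnU H.up y = l})) :
    ∑ y ∈ Finset.univ.filter (fun y : Q => eps y = 1), (wcl cl d false y : ℤ) ≠ 0 := by
  classical
  have _j : Fintype (Quotient (Equiv.Perm.SameCycle.setoid H.up.U)) := Fintype.ofFinite _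
  have hcL : ∀ x y : Q, (Equiv.Perm.SameCycle.setoid H.up.U) x y → cl x = cl y := fun x y h =>
    Plc.line_const H hc (Quotient.sound h)
  have hdL : ∀ x y : Q, (Equiv.Perm.SameCycle.setoid H.up.U) x y → d x = d y := fun x y h =>
    Plc.line_const H hd (Quotient.sound h)
  obtain ⟨cl', hcl'⟩ : ∃ f : Quotient (Equiv.Perm.SameCycle.setoid H.up.U) → Bool, ∀ y, f (lnU H.up y) = cl y :=
    ⟨Quotient.lift cl hcL, fun _ => rfl⟩
  obtain ⟨d', hd'⟩ : ∃ f : Quotient (Equiv.Perm.SameCycle.setoid H.up.U) → Bool, ∀ y, f (lnU H.up y) = d y :=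
    ⟨Quotient.lift d hdL, fun _ => rfl⟩
  have hodd' : Odd (Nat.card {l // cl' l = false}) := by
    have e : ∀ l : Quotient (Equiv.Perm.SameCycle.setoid H.up.U),
        (∃ y, cl y = false ∧ lnU H.up y = l) ↔ cl' l = false := by
      intro l
      constructor
      · rintro ⟨y, h1, rfl⟩
        rw [hcl']; exact h1
      · intro h
        obtain ⟨y, hy⟩ := Quotient.exists_rep l
        have hy' : lnU H.up y = l := hy
        exact ⟨y, by rw [← hcl', hy']; exact h, hy'⟩
    rw [← Nat.card_congr (Equiv.subtypeEquivRight e)]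
    exact hodd
  have h1 : ∀ y, (wcl cl d false y : ℤ) = wcl cl' d' false (lnU H.up y) := by
    intro y
    unfold wcl
    rw [hcl', hd']
  rw [Finset.sum_congr rfl fun y _ => h1 y, H53.sum_lines H fun l => (wcl cl' d' false l : ℤ)]
  have h3 : Odd (∑ l, (wcl cl' d' false l : ℤ)) := by
    have h4 : ∑ l, (wcl cl' d' false l : ℤ) =
        ∑ l ∈ Finset.univ.filter (fun l => cl' l = false), (if d' l then (1 : ℤ) else -1) := by
      rw [Finset.sum_filter]
      rfl
    have h5 := Finset.card_filter_add_card_filter_not (s := Finset.univ.filter (fun l => cl' l = false))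
      (fun l => d' l = true)
    rw [Nat.card_eq_fintype_card, Fintype.card_subtype, ← h5] at hodd'
    rw [h4, Finset.sum_ite, Finset.sum_const, Finset.sum_const, nsmul_eq_mul, nsmul_eq_mul, mul_one]
    obtain ⟨j, hj⟩ := hodd'
    refine ⟨(j : ℤ) - ((Finset.univ.filter (fun l => cl' l = false)).filter (fun l => ¬ d' l = true)).card, ?_⟩
    have h6 : (((Finset.univ.filter (fun l => cl' l = false)).filter (fun l => d' l = true)).card : ℤ) +
        ((Finset.univ.filter (fun l => cl' l = false)).filter (fun l => ¬ d' l = true)).card = 2 * j + 1 := by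
      exact_mod_cast hj
    linear_combination h6
  have h4 : (∑ l, (wcl cl' d' false l : ℤ)) ≠ 0 := by
    intro h
    rw [h] at h3
    exact absurd h3 (by decide)
  rw [nsmul_eq_mul]
  exact mul_ne_zero (by exact_mod_cast (Small.ord_pos H).ne') h4

variable {d cl : Q → Bool}

omit [Group Q] in
theorem wcl_cases {R : Type*} [CommRing R] (γ : Bool) (v : Q) :
    (wcl cl d γ v : R) = 0 ∨ (wcl cl d γ v : R) = 1 ∨ (wcl cl d γ v : R) = -1 := by
  unfold wcl
  split_ifs <;> simp

omit [Group Q] in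
theorem wcl_false {v : Q} : (wcl cl d false v : ℤ) = 0 ↔ cl v = true := by
  unfold wcl
  by_cases h : cl v = false
  · rw [if_pos h]
    constructor
    · intro h1
      by_cases h2 : d v = true
      · rw [if_pos h2] at h1
        exact absurd h1 one_ne_zero
      · rw [if_neg h2] at h1
        exact absurd h1 (by norm_num)
    · intro h1; rw [h] at h1; exact absurd h1 (by decide)
  · rw [if_neg h]
    exact ⟨fun _ => by simpa using h, fun _ => rfl⟩

theorem wcl_line (hd : ∀ y, d (H.up.U y) = d y) (hc : ∀ y, cl (H.up.U y) = cl y) {R : Type*} [CommRing R] (γ : Bool)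
    (y : Q) : (wcl cl d γ (H.up.U y) : R) = wcl cl d γ y := by
  unfold wcl
  rw [hd, hc]

/-- PLACE for the component of `(β₀, 1)`, class `false`. -/
theorem place_abs [Fintype Q] [Fintype Z] (β₀ : Z) (h3 : 3 ≤ (VV M β₀).card) (hd : ∀ y, d (H.up.U y) = d y)
    (hc : ∀ y, cl (H.up.U y) = cl y) (hone : ∀ y y', cl y = true → cl y' = true → lnU H.up y = lnU H.up y')
    (hodd : Odd (Nat.card {l : Quotient (Equiv.Perm.SameCycle.setoid H.up.U) // ∃ y, cl y = false ∧ lnU H.up y = l})) :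
    ∃ (y : Q) (j j' : Z × Q), eps y = 1 ∧ Rch M (β₀, 1) j ∧ Stp M j j' ∧ cl (y * j.2) = false ∧
      ∑ v ∈ VV M β₀, (wcl cl d false (y * v.2) : ℤ) ≠ 0 ∧
      ∑ v ∈ VV M β₀, (wcl cl d false (y * v.2) : ℤ) - wcl cl d false (y * j.2) - wcl cl d false (y * j'.2) ≠ 0 := by
  classical
  set θ : Q → ℤ := wcl cl d false with hθd
  have hθ : ∀ y, θ (H.up.U y) = θ y := wcl_line H hd hc false
  set V := VV M β₀ with hV
  have hVm : ∀ p, p ∈ V ↔ Rch M (β₀, 1) p := fun p => mem_VV M
  have h0 : ((β₀, 1) : Z × Q) ∈ V := (hVm _).2 Relation.ReflTransGen.refl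
  have hVe : ∀ p ∈ V, eps p.2 = 1 := by
    intro p hp
    rw [rch_ker ((hVm p).1 hp)]
    exact map_one _
  -- a translate with nonzero weight
  obtain ⟨y, hy, hD⟩ : ∃ y, eps y = 1 ∧ ∑ v ∈ V, θ (y * v.2) ≠ 0 := by
    by_contra hno
    push Not at hno
    have h1 : ∑ x ∈ Finset.univ.filter (fun x : Q => eps x = 1), ∑ v ∈ V, θ (x * v.2) =
        V.card • ∑ y ∈ Finset.univ.filter (fun y : Q => eps y = 1), θ y := by
      rw [Finset.sum_comm, Finset.sum_congr rfl fun v _ => H53.sum_right H θ hθ v.2, Finset.sum_const]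
    rw [Finset.sum_eq_zero fun x hx => hno x (Finset.mem_filter.1 hx).2, nsmul_eq_mul] at h1
    refine mul_ne_zero ?_ (sum_ker_ne H hd hc hodd) h1.symm
    have := Finset.card_pos.2 ⟨_, h0⟩
    exact_mod_cast this.ne'
  by_contra hno
  push Not at hno
  set S := ∑ v ∈ V, θ (y * v.2) with hS
  have key : ∀ j ∈ V, ∀ j', Stp M j j' → θ (y * j.2) ≠ 0 → S = θ (y * j.2) + θ (y * j'.2) := by
    intro j hj j' hjj hne
    have hcj : cl (y * j.2) = false := by
      by_contra h
      exact hne (wcl_false.2 (by simpa using h))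
    have := hno y j j' hy ((hVm j).1 hj) hjj hcj hD
    linear_combination this
  have hstep : ∀ j ∈ V, ∀ j', Stp M j j' → j' ∈ V := fun j hj j' h =>
    (hVm j').2 (Relation.ReflTransGen.tail ((hVm j).1 hj) h)
  obtain ⟨t, ht1, ht⟩ := M.rot
  have hnb : ∀ j : Z × Q, Stp M j (j.1, j.2 * t) := by
    intro j
    show j.2⁻¹ * (j.2 * t) ∈ M.mv j.1 j.1
    rw [inv_mul_cancel_left]
    exact ht _
  -- some weight is not zero
  obtain ⟨j₁, hj₁, hne₁⟩ := Finset.exists_ne_zero_of_sum_ne_zero hD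
  by_cases hall : ∀ j ∈ V, θ (y * j.2) ≠ 0 → ∀ j', Stp M j j' → θ (y * j'.2) ≠ 0
  · -- all weights are `S / 2`
    have h1 : ∀ j, Rch M j₁ j → θ (y * j.2) ≠ 0 := by
      intro j hj
      induction hj with
      | refl => exact hne₁
      | tail h1 h2 ih =>
        exact hall _ ((hVm _).2 (Relation.ReflTransGen.trans ((hVm _).1 hj₁) h1)) ih _ h2
    have h2 : ∀ j ∈ V, θ (y * j.2) ≠ 0 := fun j hj =>
      h1 j (Relation.ReflTransGen.trans (rch_symm ((hVm _).1 hj₁)) ((hVm _).1 hj))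
    have h4 : ∀ j ∈ V, 2 * θ (y * j.2) = S := by
      intro j hj
      have e := key j hj _ (hnb j) (h2 j hj)
      have h5 := h2 j hj
      have h6 := h2 _ (hstep j hj _ (hnb j))
      rcases wcl_cases (R := ℤ) (cl := cl) (d := d) false (y * j.2) with h | h | h <;>
        rcases wcl_cases (R := ℤ) (cl := cl) (d := d) false (y * (j.1, j.2 * t).2) with h' | h' | h' <;>
        rw [← hθd] at h h' <;> omega
    have h7 : 2 * S = V.card * S := by
      have : 2 * S = ∑ v ∈ V, 2 * θ (y * v.2) := by rw [hS, Finset.mul_sum]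
      rw [this, Finset.sum_congr rfl h4, Finset.sum_const, nsmul_eq_mul]
    have h8 := mul_right_cancel₀ hD h7
    have h9 : V.card = 2 := by exact_mod_cast h8.symm
    omega
  · push Not at hall
    obtain ⟨j₀, hj₀, hne₀, u₀, hu₀, hz₀⟩ := hall
    have e₀ := key j₀ hj₀ u₀ hu₀ hne₀
    rw [hz₀, add_zero] at e₀
    -- every nonzero weight is `S`
    have h1 : ∀ j ∈ V, θ (y * j.2) ≠ 0 → θ (y * j.2) = S := by
      intro j hj hne
      have e := key j hj _ (hnb j) hne
      rcases wcl_cases (R := ℤ) (cl := cl) (d := d) false (y * j₀.2) with h | h | h <;>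
        rcases wcl_cases (R := ℤ) (cl := cl) (d := d) false (y * j.2) with h' | h' | h' <;>
        rcases wcl_cases (R := ℤ) (cl := cl) (d := d) false (y * (j.1, j.2 * t).2) with h'' | h'' | h'' <;>
        rw [← hθd] at h h' h'' <;> omega
    have h2 : ∀ j ∈ V, j ≠ j₀ → θ (y * j.2) = 0 := by
      intro j hj hne
      by_contra hc0
      -- two nonzero weights
      have h4 : S = ((V.filter fun v => θ (y * v.2) ≠ 0).card : ℤ) * S := by
        have h5 : S = ∑ v ∈ V.filter (fun v => θ (y * v.2) ≠ 0), θ (y * v.2) := by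
          rw [hS, Finset.sum_filter_ne_zero]
        have h6 : ∑ v ∈ V.filter (fun v => θ (y * v.2) ≠ 0), θ (y * v.2) =
            ∑ v ∈ V.filter (fun v => θ (y * v.2) ≠ 0), S := by
          refine Finset.sum_congr rfl fun v hv => ?_
          rw [Finset.mem_filter] at hv
          exact h1 v hv.1 hv.2
        rw [h6, Finset.sum_const, nsmul_eq_mul] at h5
        exact h5
      have h5 : (1 : ℤ) * S = ((V.filter fun v => θ (y * v.2) ≠ 0).card : ℤ) * S := by rw [one_mul]; exact h4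
      have h6 := mul_right_cancel₀ hD h5
      have h7 : 1 < (V.filter fun v => θ (y * v.2) ≠ 0).card :=
        Finset.one_lt_card.2 ⟨j, Finset.mem_filter.2 ⟨hj, hc0⟩, j₀, Finset.mem_filter.2 ⟨hj₀, hne₀⟩, hne⟩
      omega
    -- left multiplication
    obtain ⟨g, hg1, hge, hgV⟩ : ∃ g : Q, g ≠ 1 ∧ eps g = 1 ∧ ∀ j ∈ V, (j.1, g * j.2) ∈ V := by
      refine ⟨t, ht1, M.ker (ht β₀), fun j hj => (hVm _).2 ?_⟩
      have h4 : Rch M (β₀, 1) (β₀, t) := by
        have h5 := hnb (β₀, 1)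
        dsimp only at h5
        rw [one_mul] at h5
        exact Relation.ReflTransGen.single h5
      have h6 := rch_lm t ((hVm j).1 hj)
      dsimp only at h6
      rw [mul_one] at h6
      exact Relation.ReflTransGen.trans h4 h6
    have hm : ∀ j : Z × Q, (j.1, g * j.2) ≠ j := by
      intro j h
      have h4 := congrArg Prod.snd h
      dsimp only at h4
      exact hg1 (mul_eq_right.1 h4)
    -- the preimage of `j₀`
    have hsurj : ∃ j ∈ V, (j.1, g * j.2) = j₀ := by
      have himg : V.image (fun j => (j.1, g * j.2)) = V := by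
        refine Finset.eq_of_subset_of_card_le ?_ ?_
        · intro j hj
          obtain ⟨i, hi, rfl⟩ := Finset.mem_image.1 hj
          exact hgV i hi
        · rw [Finset.card_image_of_injective]
          intro i i' h
          have h4 := congrArg Prod.fst h
          have h5 := congrArg Prod.snd h
          dsimp only at h4 h5
          exact Prod.ext h4 (mul_left_cancel h5)
      rw [← himg] at hj₀
      obtain ⟨i, hi, h⟩ := Finset.mem_image.1 hj₀
      exact ⟨i, hi, h⟩
    obtain ⟨i₀, hi₀, hi₀'⟩ := hsurj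
    obtain ⟨i₁, hi₁, hi₁'⟩ : ∃ i ∈ V, i ≠ j₀ ∧ i ≠ i₀ := by
      by_contra hc2
      push Not at hc2
      have h4 : V ⊆ {j₀, i₀} := by
        intro i hi
        rw [Finset.mem_insert, Finset.mem_singleton]
        by_cases h5 : i = j₀
        · exact Or.inl h5
        · exact Or.inr (hc2 i hi h5)
      have h5 := (Finset.card_le_card h4).trans Finset.card_le_two
      omega
    -- the lines
    have hc1 : cl (y * i₁.2) = true := wcl_false.1 (h2 i₁ hi₁ hi₁'.1)
    have hc2 : cl (y * (g * i₁.2)) = true := by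
      refine wcl_false.1 (h2 (i₁.1, g * i₁.2) (hgV i₁ hi₁) ?_)
      intro h
      rw [← hi₀'] at h
      have h4 := congrArg Prod.fst h
      have h5 := congrArg Prod.snd h
      dsimp only at h4 h5
      exact hi₁'.2 (Prod.ext h4 (mul_left_cancel h5))
    have hc3 : cl (y * (g * j₀.2)) = true := wcl_false.1 (h2 (j₀.1, g * j₀.2) (hgV j₀ hj₀) (hm j₀))
    have h4 := hone _ _ hc3 hc2
    have h5 : lnU H.up (y * j₀.2) = lnU H.up (y * i₁.2) := by
      have h6 : eps (y * g⁻¹ * y⁻¹) = 1 := by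
        rw [map_mul, map_mul, map_inv, map_inv, hy, hge]; decide
      rw [H53.lnU_iff H] at h4 ⊢
      have h7 := Small.ln_lm H h6 h4
      have e1 : y * g⁻¹ * y⁻¹ * (y * (g * j₀.2)) = y * j₀.2 := by group
      have e2 : y * g⁻¹ * y⁻¹ * (y * (g * i₁.2)) = y * i₁.2 := by group
      rwa [e1, e2] at h7
    have h6 := Plc.line_const H hc h5
    rw [hc1] at h6
    exact hne₀ (wcl_false.2 h6)

omit [Group Q] in
/-- The weights are small. -/
theorem abs_wcl (γ : Bool) (v : Q) : |(wcl cl d γ v : ℤ)| ≤ 1 := by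
  rcases wcl_cases (R := ℤ) (cl := cl) (d := d) γ v with h | h | h <;> rw [h] <;> simp

omit [Group Q] in
theorem wcl_cast (γ : Bool) (v : Q) (p : ℕ) : ((wcl cl d γ v : ℤ) : ZMod p) = wcl cl d γ v := by
  unfold wcl
  split_ifs <;> simp

/-- PLACE modulo `p`. -/
theorem place_abs_p [Fintype Q] [Fintype Z] (β₀ : Z) (h3 : 3 ≤ (VV M β₀).card) (hd : ∀ y, d (H.up.U y) = d y)
    (hc : ∀ y, cl (H.up.U y) = cl y) (hone : ∀ y y', cl y = true → cl y' = true → lnU H.up y = lnU H.up y')
    (hodd : Odd (Nat.card {l : Quotient (Equiv.Perm.SameCycle.setoid H.up.U) // ∃ y, cl y = false ∧ lnU H.up y = l}))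
    (p : ℕ) (hp : (VV M β₀).card + 2 < p) :
    ∃ (y : Q) (j j' : Z × Q), eps y = 1 ∧ Rch M (β₀, 1) j ∧ Stp M j j' ∧ cl (y * j.2) = false ∧
      ∑ v ∈ VV M β₀, (wcl cl d false (y * v.2) : ZMod p) ≠ 0 ∧
      ∑ v ∈ VV M β₀, (wcl cl d false (y * v.2) : ZMod p) - wcl cl d false (y * j.2) -
        wcl cl d false (y * j'.2) ≠ 0 := by
  obtain ⟨y, j, j', hy, hj, hjj, hcj, h1, h2⟩ := place_abs H M β₀ h3 hd hc hone hodd
  have hb : |∑ v ∈ VV M β₀, (wcl cl d false (y * v.2) : ℤ)| ≤ (VV M β₀).card := by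
    refine (Finset.abs_sum_le_sum_abs _ _).trans ?_
    refine (Finset.sum_le_sum fun v _ => abs_wcl false (y * v.2)).trans ?_
    simp
  refine ⟨y, j, j', hy, hj, hjj, hcj, fun h0 => h1 ?_, fun h0 => h2 ?_⟩
  · have e : ((∑ v ∈ VV M β₀, (wcl cl d false (y * v.2) : ℤ) : ℤ) : ZMod p) = 0 := by
      rw [Int.cast_sum, Finset.sum_congr rfl fun v _ => wcl_cast false (y * v.2) p]
      exact h0
    rw [ZMod.intCast_zmod_eq_zero_iff_dvd] at e
    refine Int.eq_zero_of_abs_lt_dvd e ?_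
    have : (((VV M β₀).card + 2 : ℕ) : ℤ) < p := by exact_mod_cast hp
    push_cast at this
    linarith
  · have e : ((∑ v ∈ VV M β₀, (wcl cl d false (y * v.2) : ℤ) - wcl cl d false (y * j.2) -
        wcl cl d false (y * j'.2) : ℤ) : ZMod p) = 0 := by
      rw [Int.cast_sub, Int.cast_sub, Int.cast_sum, Finset.sum_congr rfl fun v _ => wcl_cast false (y * v.2) p,
        wcl_cast, wcl_cast]
      exact h0
    rw [ZMod.intCast_zmod_eq_zero_iff_dvd] at e
    refine Int.eq_zero_of_abs_lt_dvd e ?_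
    have h4 : (((VV M β₀).card + 2 : ℕ) : ℤ) < p := by exact_mod_cast hp
    push_cast at h4
    have h5 := abs_wcl (cl := cl) (d := d) false (y * j.2)
    have h6 := abs_wcl (cl := cl) (d := d) false (y * j'.2)
    rw [abs_le] at hb h5 h6
    rw [abs_lt]
    constructor <;> linarith [hb.1, hb.2, h5.1, h5.2, h6.1, h6.2]

/-- The number of elements of a component. -/
theorem card_VV [Fintype Q] [Fintype Z] (hD : Nat.card D ≤ k) (β₀ : Z) (cst : Z → Q) (h0 : cst β₀ = 1)
    (hmv : ∀ β β', ∀ g ∈ M.mv β β', cst β * g * (cst β')⁻¹ ∈ D) : (VV M β₀).card ≤ Fintype.card Z * k := by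
  classical
  have h1 : ∀ p, Rch M (β₀, 1) p → p.2 * (cst p.1)⁻¹ ∈ D := by
    intro p hp
    induction hp with
    | refl =>
      dsimp only
      rw [h0, inv_one, mul_one]
      exact D.one_mem
    | tail _ h2 ih =>
      have h4 := D.mul_mem ih (hmv _ _ _ h2)
      rename_i p₁ p₂ _
      have e : p₁.2 * (cst p₁.1)⁻¹ * (cst p₁.1 * (p₁.2⁻¹ * p₂.2) * (cst p₂.1)⁻¹) = p₂.2 * (cst p₂.1)⁻¹ := by group
      rwa [e] at h4
  have h2 : (VV M β₀).card ≤ Fintype.card (Z × D) := by
    rw [← Finset.card_univ]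
    refine Finset.card_le_card_of_injOn (fun p => if h : p.2 * (cst p.1)⁻¹ ∈ D then (p.1, (⟨_, h⟩ : D)) else (β₀, 1))
      (fun _ _ => Finset.mem_univ _) ?_
    intro p hp p' hp' h
    have m1 := h1 p ((mem_VV M).1 hp)
    have m2 := h1 p' ((mem_VV M).1 hp')
    dsimp only at h
    rw [dif_pos m1, dif_pos m2] at h
    have e1 := congrArg Prod.fst h
    have e2 := congrArg (fun x => (x.2 : Q)) h
    dsimp only at e1 e2
    rw [← e1] at e2
    exact Prod.ext e1 (mul_right_cancel e2)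
  refine h2.trans ?_
  rw [Fintype.card_prod]
  refine Nat.mul_le_mul le_rfl ?_
  rw [← Nat.card_eq_fintype_card]
  exact hD

end

end Cnt

end Pool.Agent.Lib.MP_688fd0_co.SQ4.CV
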