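import Pool.Agent.Lib.MP_688fd0_co.SQ4.IfaceV2

/-!
PLX, the parts of helper53: the count for the class `false` and the strand of the class `true`.
-/

set_option autoImplicit false

namespace Pool.Agent.Lib.MP_688fd0_co.SQ4.CV

open Pool.Agent.Lib.MP_688fd0_co.OSF Pool.Agent.Lib.MP_688fd0_co.SQ2 Pool.Agent.Lib.MP_688fd0_co.SQ3
open Pool.Agent.Lib.MP_688fd0_co.SQ4

open Classical in
/-- The sum of the weights of a set of strands. -/
noncomputable def sumA {Q R : Type} [AddCommMonoid R] {F : Finset Q} (A : {v // v ∈ F} → Prop) (w : Q → R) : R :=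
  ∑ v, if A v then w v else 0

/-- COUNTX: the class `false`. -/
def CountXS : Prop :=
  ∀ (Q : Type) [Group Q] [DecidableEq Q] (B : Lb.{0, 0} Q) (a b : B.L) (eps : Q →* ℤˣ) (D : Subgroup Q) (z : Q) (k : ℕ)
    (H : HypC B a b eps D z k) (c W : ℕ), SinkU H.up D W → SepU H.up D c W → LevU H.up D W →
    lamC ((Nat.card B.L + 2) ^ 4 * k) k c ≤ W →
    ∀ (d cl : Q → Bool) (N : ℕ) (x s₁ s₂ : Fin N → Q) (F : Fin N → Finset Q) (rk : Fin N → ℕ)
      (_ : CtxV H c W d cl x s₁ s₂ F rk) (T : ∀ i, Pth H (F i)) (h : ℕ), (∀ i, (T i).FullM (c + 2) h) →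
      ∀ (p : ℕ) (_ : Fact p.Prime), 4 * k < p → ∀ s, EffL B a b eps D z k s →
        ∃ (i : Fin N) (c' : (T i).C) (n : ℤ) (v y v₀ : {v // v ∈ F i}),
          FamX H _ _ ((T i).X c') s n (MsC B a b D z k s) (fun u => Sh D (v : Q) (u : Q))
            (fun u => Sh D (y : Q) (u : Q)) ((T i).wd c') ((T i).In c') h ∧
          (Sh D (v : Q) (v₀ : Q) ∨ Sh D (y : Q) (v₀ : Q)) ∧
          ((v₀ : Q) = x i ∨ (v₀ : Q) = s₁ i ∨ (v₀ : Q) = s₂ i) ∧
          ∀ A, (T i).IsComp (fun c'' => c'' = c') v₀ A →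
            sumA A (wcl cl d false : Q → ZMod p) ≠ 0 ∧
            ∃ (r₀ : (T i).Rc c') (u₀ : {v // v ∈ F i}),
              ((((T i).X c').x r₀ = v₀ ∧ ((T i).X c').y r₀ = u₀) ∨ (((T i).X c').x r₀ = u₀ ∧ ((T i).X c').y r₀ = v₀)) ∧
              sumA A (wcl cl d false : Q → ZMod p) - wcl cl d false (v₀ : Q) - wcl cl d false (u₀ : Q) ≠ 0

/-- NEART: the class `true`. A rung between one of the strands `x i`, `s₁ i`, `s₂ i` and a strand of the class `true`, and a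
family of `s` there. -/
def NearTS : Prop :=
  ∀ (Q : Type) [Group Q] [DecidableEq Q] (B : Lb.{0, 0} Q) (a b : B.L) (eps : Q →* ℤˣ) (D : Subgroup Q) (z : Q) (k : ℕ)
    (H : HypC B a b eps D z k) (c W : ℕ), SinkU H.up D W → SepU H.up D c W → LevU H.up D W →
    lamC ((Nat.card B.L + 2) ^ 4 * k) k c ≤ W →
    ∀ (d cl : Q → Bool) (N : ℕ) (x s₁ s₂ : Fin N → Q) (F : Fin N → Finset Q) (rk : Fin N → ℕ)
      (_ : CtxV H c W d cl x s₁ s₂ F rk) (T : ∀ i, Pth H (F i)) (h : ℕ), (∀ i, (T i).FullM (c + 2) h) →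
      (∃ y, cl y = true) → ∀ s, EffL B a b eps D z k s →
        ∃ (i : Fin N) (v₀ u : {v // v ∈ F i}), ((v₀ : Q) = x i ∨ (v₀ : Q) = s₁ i ∨ (v₀ : Q) = s₂ i) ∧
          cl (u : Q) = true ∧
          (∃ (c₁ : (T i).C) (r : (T i).Rc c₁),
            (((T i).X c₁).x r = v₀ ∧ ((T i).X c₁).y r = u) ∨ (((T i).X c₁).x r = u ∧ ((T i).X c₁).y r = v₀)) ∧
          ∃ (c' : (T i).C) (n : ℤ) (y : {v // v ∈ F i}),
            FamX H _ _ ((T i).X c') s n (MsC B a b D z k s) (fun u => Sh D (v₀ : Q) (u : Q))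
              (fun u => Sh D (y : Q) (u : Q)) ((T i).wd c') ((T i).In c') h

end Pool.Agent.Lib.MP_688fd0_co.SQ4.CV
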