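import Pool.Agent.Lib.MP_688fd0_co.SQ4.H53.Abs
import Pool.Agent.Lib.MP_688fd0_co.SQ4.H53.IfaceP
import Pool.Agent.Lib.MP_688fd0_co.SQ4.H41.Pth

/-!
COUNTX: the components of the families with cross rungs.
-/

set_option autoImplicit false

namespace Pool.Agent.Lib.MP_688fd0_co.SQ4.CV

open Pool.Agent.Lib.MP_688fd0_co.OSF Pool.Agent.Lib.MP_688fd0_co.SQ2 Pool.Agent.Lib.MP_688fd0_co.SQ3
open Pool.Agent.Lib.MP_688fd0_co.SQ4

namespace Cnt

section cod

variable {Q : Type} [Group Q] [DecidableEq Q] {B : Lb.{0, 0} Q} {a b : B.L}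
  {eps : Q →* ℤˣ} {D : Subgroup Q} {z : Q} {k : ℕ} {H : HypC B a b eps D z k} {F : Finset Q} {Z : Type}

/-- Codes of the strands of a family. -/
structure Cod (M : MvS B a b eps Z) (T : Pth H F) (c : T.C) (Y : {v // v ∈ F} → Prop)
    (P : {v // v ∈ F} → Z × Q) : Prop where
  r1 : ∀ r, Y ((T.X c).x r) ∧ Y ((T.X c).y r) ∧ Stp M (P ((T.X c).x r)) (P ((T.X c).y r))
  r2 : ∀ u, Y u → ∀ p, Stp M (P u) p → ∃ u', Y u' ∧ P u' = p ∧ ∃ r,
    ((T.X c).x r = u ∧ (T.X c).y r = u') ∨ ((T.X c).x r = u' ∧ (T.X c).y r = u)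
  inj : ∀ u u', Y u → Y u' → P u = P u' → u = u'
  ker : ∀ u, eps (P u).2 = 1
  ln : ∀ u, lnU H.up (P u).2 = lnU H.up (u : Q)

variable {M : MvS B a b eps Z} {T : Pth H F} {c : T.C} {Y : {v // v ∈ F} → Prop} {P : {v // v ∈ F} → Z × Q}

theorem Cod.lift (hC : Cod M T c Y P) {v₀ : {v // v ∈ F}} (hv : Y v₀) {p : Z × Q} (h : Rch M (P v₀) p) :
    ∃ u, Y u ∧ P u = p ∧ Relation.ReflTransGen (T.Jn fun c' => c' = c) v₀ u := by
  induction h with
  | refl => exact ⟨v₀, hv, rfl, Relation.ReflTransGen.refl⟩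
  | tail _ h1 ih =>
    obtain ⟨u, hu, rfl, hr⟩ := ih
    obtain ⟨u', hu', hP, r, hr'⟩ := hC.r2 u hu _ h1
    exact ⟨u', hu', hP, Relation.ReflTransGen.tail hr ⟨c, rfl, r, hr'⟩⟩

theorem Cod.comp (hC : Cod M T c Y P) {v₀ : {v // v ∈ F}} {A : {v // v ∈ F} → Prop}
    (hA : T.IsComp (fun c' => c' = c) v₀ A) (hv : Y v₀) (u : {v // v ∈ F}) : A u ↔ Y u ∧ Rch M (P v₀) (P u) := by
  rw [hA u]
  constructor
  · intro h
    induction h with
    | refl => exact ⟨hv, Relation.ReflTransGen.refl⟩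
    | tail _ h1 ih =>
      obtain ⟨c', rfl, r, ⟨h2, h3⟩ | ⟨h2, h3⟩⟩ := h1
      · obtain ⟨-, h4, h5⟩ := hC.r1 r
        rw [h2, h3] at h5
        rw [h3] at h4
        exact ⟨h4, Relation.ReflTransGen.tail ih.2 h5⟩
      · obtain ⟨h4, -, h5⟩ := hC.r1 r
        rw [h2, h3] at h5
        rw [h2] at h4
        exact ⟨h4, Relation.ReflTransGen.tail ih.2 (stp_symm h5)⟩
  · rintro ⟨hu, h⟩
    obtain ⟨u', hu', hP, hr⟩ := hC.lift hv h
    rwa [← hC.inj u' u hu' hu hP]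

/-- The sum over a component. -/
theorem Cod.sum [Fintype Q] [Fintype Z] (hC : Cod M T c Y P) {v₀ : {v // v ∈ F}} {A : {v // v ∈ F} → Prop}
    (hA : T.IsComp (fun c' => c' = c) v₀ A) (hv : Y v₀) {R : Type} [AddCommMonoid R] {θ : Q → R}
    (hθ : ∀ y, θ (H.up.U y) = θ y) {β₀ : Z} {j : Z × Q} (hj : Rch M (β₀, 1) j) {y : Q} {l : ℤ}
    (hP : P v₀ = (j.1, y * j.2 * wC B a b ^ l)) : sumA A θ = ∑ v ∈ VV M β₀, θ (y * v.2) := by
  classical
  have hmem : ∀ u, A u → ((P u).1, y⁻¹ * (P u).2 * wC B a b ^ (-l)) ∈ VV M β₀ := by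
    intro u hu
    have h1 := ((hC.comp hA hv u).1 hu).2
    rw [hP, rch_tr hj] at h1
    exact (mem_VV M).2 h1
  unfold sumA
  rw [← Finset.sum_filter]
  refine Finset.sum_nbij (fun u => ((P u).1, y⁻¹ * (P u).2 * wC B a b ^ (-l))) ?_ ?_ ?_ ?_
  · intro u hu
    exact hmem u (Finset.mem_filter.1 hu).2
  · intro u hu u' hu' h
    have h1 := (hC.comp hA hv u).1 (Finset.mem_filter.1 (Finset.mem_coe.1 hu)).2
    have h2 := (hC.comp hA hv u').1 (Finset.mem_filter.1 (Finset.mem_coe.1 hu')).2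
    refine hC.inj u u' h1.1 h2.1 ?_
    have e1 := congrArg Prod.fst h
    have e2 := congrArg Prod.snd h
    dsimp only at e1 e2
    exact Prod.ext e1 (mul_left_cancel (mul_right_cancel e2))
  · intro v hv'
    have h1 : Rch M (P v₀) (v.1, y * v.2 * wC B a b ^ l) := by
      rw [hP, rch_tr hj]
      have e : y⁻¹ * (y * v.2 * wC B a b ^ l) * wC B a b ^ (-l) = v.2 := by rw [zpow_neg]; group
      dsimp only
      rw [e]
      exact (mem_VV M).1 (Finset.mem_coe.1 hv')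
    obtain ⟨u, hu, hPu, -⟩ := hC.lift hv h1
    refine ⟨u, ?_, ?_⟩
    · rw [Finset.mem_coe, Finset.mem_filter]
      exact ⟨Finset.mem_univ _, (hC.comp hA hv u).2 ⟨hu, by rw [hPu]; exact h1⟩⟩
    · dsimp only
      rw [hPu]
      have e : y⁻¹ * (y * v.2 * wC B a b ^ l) * wC B a b ^ (-l) = v.2 := by rw [zpow_neg]; group
      dsimp only
      rw [e]
  · intro u _
    dsimp only
    have e : y * (y⁻¹ * (P u).2 * wC B a b ^ (-l)) = (P u).2 * wC B a b ^ (-l) := by group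
    rw [e]
    exact (Plc.line_const H hθ ((Plc.lnU_w H (hC.ker u) (-l)).trans (hC.ln u))).symm

/-- The count. -/
theorem Cod.count [Fintype Q] [Fintype Z] (hC : Cod M T c Y P) {v₀ : {v // v ∈ F}} (hv : Y v₀) {R : Type} [CommRing R]
    {θ : Q → R} (hθ : ∀ y, θ (H.up.U y) = θ y) {β₀ : Z} {j j' : Z × Q} (hj : Rch M (β₀, 1) j) (hjj : Stp M j j')
    {y : Q} {l : ℤ} (hP : P v₀ = (j.1, y * j.2 * wC B a b ^ l))
    (h1 : ∑ v ∈ VV M β₀, θ (y * v.2) ≠ 0)
    (h2 : ∑ v ∈ VV M β₀, θ (y * v.2) - θ (y * j.2) - θ (y * j'.2) ≠ 0) :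
    ∀ A, T.IsComp (fun c' => c' = c) v₀ A → sumA A θ ≠ 0 ∧
      ∃ (r₀ : T.Rc c) (u₀ : {v // v ∈ F}),
        (((T.X c).x r₀ = v₀ ∧ (T.X c).y r₀ = u₀) ∨ ((T.X c).x r₀ = u₀ ∧ (T.X c).y r₀ = v₀)) ∧
        sumA A θ - θ (v₀ : Q) - θ (u₀ : Q) ≠ 0 := by
  intro A hA
  have hs := hC.sum hA hv hθ hj hP
  refine ⟨by rw [hs]; exact h1, ?_⟩
  have h3 : Stp M (P v₀) (j'.1, y * j'.2 * wC B a b ^ l) := by
    rw [hP]
    exact stp_rw l (stp_lm y hjj)
  obtain ⟨u, hu, hPu, r, hr⟩ := hC.r2 v₀ hv _ h3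
  refine ⟨r, u, hr, ?_⟩
  have ev : θ (v₀ : Q) = θ (y * j.2) := by
    apply Plc.line_const H hθ
    have e1 := hC.ln v₀
    have e3 := hC.ker v₀
    rw [hP] at e1 e3
    dsimp only at e1 e3
    rw [← e1]
    refine Plc.lnU_w H ?_ l
    rw [map_mul, Plc.eps_wz H, mul_one] at e3
    exact e3
  have eu : θ (u : Q) = θ (y * j'.2) := by
    apply Plc.line_const H hθ
    have e1 := hC.ln u
    have e3 := hC.ker u
    rw [hPu] at e1 e3
    dsimp only at e1 e3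
    rw [← e1]
    refine Plc.lnU_w H ?_ l
    rw [map_mul, Plc.eps_wz H, mul_one] at e3
    exact e3
  rw [hs, ev, eu]
  exact h2

end cod

/-! ### Moves of the families -/

section mv

variable {Q : Type} [Group Q] (B : Lb.{0, 0} Q) (a b : B.L) (eps : Q →* ℤˣ) (D : Subgroup Q) (z : Q) (k : ℕ)

/-- The moves of the cross rungs of `s`. -/
def XsC (s : B.L) : Set Q :=
  {x | ∃ m ∈ MsC B a b D z k s, ∃ i : ℤ, x = m * (wC B a b ^ i * sg B a s * wC B a b ^ (-i))}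

variable {B a b eps D z k} (H : HypC B a b eps D z k) {s : B.L} (hs : eps (B.q s) = -1)

theorem mem_SI_rot {t : B.L} (ht : eps (B.q t) = 1) : B.q t ∈ SI B a b eps D z k := by
  refine ⟨1, Subgroup.one_mem _, 0, t, ht, ?_⟩
  show B.q t = (1 * 1) * B.q t * (1 * 1)⁻¹
  group

include H hs

theorem XsC_ker {x : Q} (hx : x ∈ XsC B a b D z k s) : eps x = 1 := by
  obtain ⟨m, hm, i, rfl⟩ := hx
  rw [map_mul, map_mul, map_mul, Plc.eps_wz H, Plc.eps_wz H, Ct.eps_sg H hs, (show eps m = 1 from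
    H.leD (mZ_le H hm.1))]
  rfl

omit hs in
theorem XsC_cj {x : Q} (hx : x ∈ XsC B a b D z k s) (j : ℤ) :
    wC B a b ^ j * x * wC B a b ^ (-j) ∈ XsC B a b D z k s := by
  obtain ⟨m, hm, i, rfl⟩ := hx
  refine ⟨wC B a b ^ j * m * wC B a b ^ (-j), ⟨Ct.mZ_conj H hm.1 j, fun h => ?_⟩, j + i, ?_⟩
  · rw [hm.2 h, mul_one, ← zpow_add, add_neg_cancel, zpow_zero]
  · rw [zpow_add, neg_add, zpow_add, zpow_neg, zpow_neg]
    group

/-- `x σ⁻¹ ∈ D`. -/
theorem XsC_D {x : Q} (hx : x ∈ XsC B a b D z k s) : x * (sg B a s)⁻¹ ∈ D := by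
  obtain ⟨m, hm, i, rfl⟩ := hx
  have h1 := Ct.comm_mem H (Ct.eps_sg H hs) i
  have h2 := H.nD.conj_mem _ h1 (sg B a s)
  have h3 := D.mul_mem (mZ_le H hm.1) h2
  have e : m * (sg B a s * ((sg B a s)⁻¹ * (wC B a b ^ i * sg B a s * wC B a b ^ (-i))) * (sg B a s)⁻¹) =
      m * (wC B a b ^ i * sg B a s * wC B a b ^ (-i)) * (sg B a s)⁻¹ := by group
  rwa [e] at h3

omit H hs in
theorem sg_XsC : sg B a s ∈ XsC B a b D z k s := by
  refine ⟨1, ⟨Subgroup.one_mem _, fun _ => rfl⟩, 0, ?_⟩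
  rw [neg_zero, zpow_zero, one_mul, one_mul, mul_one]

/-- The moves of a family with two sheets. -/
def mvF : MvS B a b eps Bool where
  mv := fun β β' => match β, β' with
    | false, false => SI B a b eps D z k
    | true, true => SI B a b eps D z k
    | false, true => XsC B a b D z k s
    | true, false => {g | g⁻¹ ∈ XsC B a b D z k s}
  sym := by
    intro β β' g hg
    cases β <;> cases β'
    · exact Ct.SI_inv hg
    · show g⁻¹⁻¹ ∈ XsC B a b D z k s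
      rw [inv_inv]
      exact hg
    · exact hg
    · exact Ct.SI_inv hg
  ker := by
    intro β β' g hg
    cases β <;> cases β'
    · exact H.leD (Ct.SI_mem H hg)
    · exact XsC_ker H hs hg
    · have h1 := XsC_ker H hs (show g⁻¹ ∈ XsC B a b D z k s from hg)
      rw [map_inv, inv_eq_one] at h1
      exact h1
    · exact H.leD (Ct.SI_mem H hg)
  cj := by
    intro β β' g j hg
    cases β <;> cases β'
    · exact Ct.SI_conj H hg j
    · exact XsC_cj H hg j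
    · show (wC B a b ^ j * g * wC B a b ^ (-j))⁻¹ ∈ XsC B a b D z k s
      have h1 := XsC_cj H (show g⁻¹ ∈ XsC B a b D z k s from hg) j
      have e : (wC B a b ^ j * g * wC B a b ^ (-j))⁻¹ = wC B a b ^ j * g⁻¹ * wC B a b ^ (-j) := by
        rw [zpow_neg]; group
      rwa [e]
    · exact Ct.SI_conj H hg j
  rot := by
    obtain ⟨t, ht⟩ := H.rot
    refine ⟨B.q t, B.ne_one t, fun β => ?_⟩
    cases β
    · exact mem_SI_rot ht
    · exact mem_SI_rot ht

/-- The moves of a family with one sheet. -/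
def mvN (n : ℤ) : MvS B a b eps Unit where
  mv := fun _ _ => {g | g ∈ SI B a b eps D z k ∨ g * wC B a b ^ n ∈ XsC B a b D z k s ∨
    g⁻¹ * wC B a b ^ n ∈ XsC B a b D z k s}
  sym := by
    intro β β' g hg
    rcases hg with hg | hg | hg
    · exact Or.inl (Ct.SI_inv hg)
    · exact Or.inr (Or.inr (by rwa [inv_inv]))
    · exact Or.inr (Or.inl hg)
  ker := by
    intro β β' g hg
    rcases hg with hg | hg | hg
    · exact H.leD (Ct.SI_mem H hg)
    · have h1 := XsC_ker H hs hg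
      rwa [map_mul, Plc.eps_wz H, mul_one] at h1
    · have h1 := XsC_ker H hs hg
      rwa [map_mul, Plc.eps_wz H, mul_one, map_inv, inv_eq_one] at h1
  cj := by
    intro β β' g j hg
    rcases hg with hg | hg | hg
    · exact Or.inl (Ct.SI_conj H hg j)
    · refine Or.inr (Or.inl ?_)
      have h1 := XsC_cj H hg j
      have e : wC B a b ^ j * (g * wC B a b ^ n) * wC B a b ^ (-j) =
          wC B a b ^ j * g * wC B a b ^ (-j) * wC B a b ^ n := by
        rw [mul_assoc, mul_assoc, mul_assoc, mul_assoc, ← zpow_add, ← zpow_add, add_comm]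
      rwa [e] at h1
    · refine Or.inr (Or.inr ?_)
      have h1 := XsC_cj H hg j
      have e : wC B a b ^ j * (g⁻¹ * wC B a b ^ n) * wC B a b ^ (-j) =
          (wC B a b ^ j * g * wC B a b ^ (-j))⁻¹ * wC B a b ^ n := by
        have e1 : (wC B a b ^ j * g * wC B a b ^ (-j))⁻¹ = wC B a b ^ j * g⁻¹ * wC B a b ^ (-j) := by
          rw [zpow_neg]; group
        rw [e1, mul_assoc, mul_assoc, mul_assoc, mul_assoc, ← zpow_add, ← zpow_add, add_comm]
      rwa [e] at h1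
  rot := by
    obtain ⟨t, ht⟩ := H.rot
    exact ⟨B.q t, B.ne_one t, fun β => Or.inl (mem_SI_rot ht)⟩

end mv

end Cnt

end Pool.Agent.Lib.MP_688fd0_co.SQ4.CV
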