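import Pool.Agent.Lib.MP_688fd0_co.SQ4.H53.Cod

/-!
COUNTX: the codes of the families with cross rungs.
-/

set_option autoImplicit false

namespace Pool.Agent.Lib.MP_688fd0_co.SQ4.CV

open Pool.Agent.Lib.MP_688fd0_co.OSF Pool.Agent.Lib.MP_688fd0_co.SQ2 Pool.Agent.Lib.MP_688fd0_co.SQ3
open Pool.Agent.Lib.MP_688fd0_co.SQ4

namespace Cnt

section

variable {Q : Type} [Group Q] {B : Lb.{0, 0} Q} {a b : B.L}
  {eps : Q →* ℤˣ} {D : Subgroup Q} {z : Q} {k : ℕ} (H : HypC B a b eps D z k)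

include H

/-- A strand of the sheet of `v` with a given retraction. -/
theorem ex_sh {c W : ℕ} {x : Q} {F : Finset Q} (hF : FrC H.up D k c W x F) (v : {v // v ∈ F}) {g : Q}
    (hg : (rfC eps (B.q a) (v : Q))⁻¹ * g ∈ D) :
    ∃ u : {v // v ∈ F}, Sh D (v : Q) (u : Q) ∧ rfC eps (B.q a) (u : Q) = g := by
  have h1 := sh_shf H hg (v : Q)
  have h2 := hF.inv v v.2 _ h1
  rw [mul_inv_cancel_left] at h2
  refine ⟨⟨_, h2⟩, h1, ?_⟩
  show rfC eps (B.q a) (shf eps (B.q a) ((rfC eps (B.q a) (v : Q))⁻¹ * g) (v : Q)) = g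
  rw [rf_shf H hg, mul_inv_cancel_left]

theorem mul_w_D {g : Q} {u : Q} {n : ℤ} (h : u⁻¹ * (g * wC B a b ^ n) ∈ D) :
    (u * wC B a b ^ (-n))⁻¹ * g ∈ D := by
  have h1 := H.nD.conj_mem _ h (wC B a b ^ n)
  have e : wC B a b ^ n * (u⁻¹ * (g * wC B a b ^ n)) * (wC B a b ^ n)⁻¹ = (u * wC B a b ^ (-n))⁻¹ * g := by
    rw [zpow_neg]; group
  rwa [e] at h1

end

section far

variable {Q : Type} [Group Q] [DecidableEq Q] {B : Lb.{0, 0} Q} {a b : B.L}
  {eps : Q →* ℤˣ} {D : Subgroup Q} {z : Q} {k : ℕ} {H : HypC B a b eps D z k} {F : Finset Q}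

open Classical in
/-- The codes for two sheets. -/
noncomputable def PF (B : Lb.{0, 0} Q) (a b : B.L) (eps : Q →* ℤˣ) (D : Subgroup Q) (v : {v // v ∈ F}) (n : ℤ)
    (u : {v // v ∈ F}) : Bool × Q :=
  if Sh D (v : Q) (u : Q) then (false, rfC eps (B.q a) (u : Q)) else (true, rfC eps (B.q a) (u : Q) * wC B a b ^ n)

omit [DecidableEq Q] in
theorem PF_0 {v u : {v // v ∈ F}} {n : ℤ} (h : Sh D (v : Q) (u : Q)) :
    PF B a b eps D v n u = (false, rfC eps (B.q a) (u : Q)) := if_pos h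

omit [DecidableEq Q] in
theorem PF_1 {v u : {v // v ∈ F}} {n : ℤ} (h : ¬ Sh D (v : Q) (u : Q)) :
    PF B a b eps D v n u = (true, rfC eps (B.q a) (u : Q) * wC B a b ^ n) := if_neg h

theorem codF {c W : ℕ} {x : Q} (hF : FrC H.up D k c W x F) (hW : 1 ≤ W) {T : Pth H F} {c' : T.C} {s : B.L}
    (hs : eps (B.q s) = -1) {n : ℤ} {v y : {v // v ∈ F}} {h : ℕ}
    (hX : FamX H _ _ (T.X c') s n (MsC B a b D z k s) (fun u => Sh D (v : Q) (u : Q))
      (fun u => Sh D (y : Q) (u : Q)) (T.wd c') (T.In c') h)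
    (hj : (rfC eps (B.q a) (v : Q) * sg B a s)⁻¹ * (rfC eps (B.q a) (y : Q) * wC B a b ^ n) ∈ D)
    (hne : ¬ Sh D (v : Q) (y : Q)) :
    Cod (mvF H hs) T c' (fun u => Sh D (v : Q) (u : Q) ∨ Sh D (y : Q) (u : Q)) (PF B a b eps D v n) := by
  have hdis : ∀ u : {v // v ∈ F}, Sh D (y : Q) (u : Q) → ¬ Sh D (v : Q) (u : Q) := fun u h1 h2 =>
    hne (h2.trans h1.symm)
  -- cross rungs
  have hcr : ∀ u u' : {v // v ∈ F}, Crs H (fun v : {v // v ∈ F} => (v : Q)) s n (MsC B a b D z k s)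
      (fun u => Sh D (v : Q) (u : Q)) (fun u => Sh D (y : Q) (u : Q)) u u' →
      Stp (mvF H hs) (PF B a b eps D v n u) (PF B a b eps D v n u') := by
    rintro u u' ⟨h0, h1, i, m, hm, he⟩
    rw [PF_0 h0, PF_1 (hdis u' h1)]
    show (rfC eps (B.q a) (u : Q))⁻¹ * (rfC eps (B.q a) (u' : Q) * wC B a b ^ n) ∈ XsC B a b D z k s
    refine ⟨m, hm, i, ?_⟩
    rw [he]
    group
  refine ⟨?_, ?_, ?_, ?_, ?_⟩
  · intro r
    refine ⟨hX.xY r, hX.yY r, ?_⟩
    by_cases hI : T.In c' r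
    · obtain ⟨hsh, q, hq, he⟩ := hX.inner r hI
      by_cases h0 : Sh D (v : Q) (((T.X c').x r : {v // v ∈ F}) : Q)
      · rw [PF_0 h0, PF_0 (h0.trans hsh)]
        show (rfC eps (B.q a) (((T.X c').x r : {v // v ∈ F}) : Q))⁻¹ *
          rfC eps (B.q a) (((T.X c').y r : {v // v ∈ F}) : Q) ∈ SI B a b eps D z k
        rw [he, inv_mul_cancel_left]
        exact hq
      · rw [PF_1 h0, PF_1 (fun h1 => h0 (h1.trans hsh.symm))]
        show (rfC eps (B.q a) (((T.X c').x r : {v // v ∈ F}) : Q) * wC B a b ^ n)⁻¹ *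
          (rfC eps (B.q a) (((T.X c').y r : {v // v ∈ F}) : Q) * wC B a b ^ n) ∈ SI B a b eps D z k
        rw [he]
        have h1 := Ct.SI_conj H hq (-n)
        have e : wC B a b ^ (-n) * q * wC B a b ^ (- -n) =
            (rfC eps (B.q a) (((T.X c').x r : {v // v ∈ F}) : Q) * wC B a b ^ n)⁻¹ *
            (rfC eps (B.q a) (((T.X c').x r : {v // v ∈ F}) : Q) * q * wC B a b ^ n) := by
          rw [neg_neg, zpow_neg]; group
        rwa [e] at h1
    · rcases hX.cross r hI with h1 | h1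
      · exact hcr _ _ h1
      · exact stp_symm (hcr _ _ h1)
  · intro u hu p hp
    obtain ⟨β', g'⟩ := p
    have cross_ex : ∀ u u' : {v // v ∈ F}, Crs H (fun v : {v // v ∈ F} => (v : Q)) s n (MsC B a b D z k s)
        (fun u => Sh D (v : Q) (u : Q)) (fun u => Sh D (y : Q) (u : Q)) u u' →
        ∃ r, ((T.X c').x r = u ∧ (T.X c').y r = u') ∨ ((T.X c').x r = u' ∧ (T.X c').y r = u) := by
      intro u u' hc
      obtain ⟨r, -, hr⟩ := hX.crs u u' hc
      exact ⟨r, hr⟩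
    by_cases h0 : Sh D (v : Q) (u : Q)
    · rw [PF_0 h0] at hp
      cases β' with
      | false =>
        have hq : (rfC eps (B.q a) (u : Q))⁻¹ * g' ∈ SI B a b eps D z k := hp
        obtain ⟨r, hI, hx, he⟩ := hX.inn u hu _ hq
        obtain ⟨hsh, -⟩ := hX.inner r hI
        have hsh' : Sh D (u : Q) (((T.X c').y r : {v // v ∈ F}) : Q) := by
          rw [hx] at hsh
          exact hsh
        refine ⟨(T.X c').y r, hX.yY r, ?_, r, Or.inl ⟨hx, rfl⟩⟩
        rw [PF_0 (h0.trans hsh')]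
        have he' : rfC eps (B.q a) (((T.X c').y r : {v // v ∈ F}) : Q) = g' := by
          rw [he, mul_inv_cancel_left]
        rw [he']
      | true =>
        have hx : (rfC eps (B.q a) (u : Q))⁻¹ * g' ∈ XsC B a b D z k s := hp
        have hxD := XsC_D H hs hx
        -- the strand
        have h1 := Ct.rf_sh H h0
        obtain ⟨u', hu', he⟩ := ex_sh H hF y (g := g' * wC B a b ^ (-n)) (by
          have h2 : (rfC eps (B.q a) (v : Q))⁻¹ * rfC eps (B.q a) (u : Q) ∈ D := h1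
          have h3 := H.nD.conj_mem _ (D.mul_mem h2 hxD) (sg B a s)⁻¹
          have h4 := D.mul_mem (D.inv_mem hj) h3
          have h5 := H.nD.conj_mem _ h4 (wC B a b ^ n)
          have e : wC B a b ^ n * (((rfC eps (B.q a) (v : Q) * sg B a s)⁻¹ *
              (rfC eps (B.q a) (y : Q) * wC B a b ^ n))⁻¹ * ((sg B a s)⁻¹ *
              ((rfC eps (B.q a) (v : Q))⁻¹ * rfC eps (B.q a) (u : Q) *
              ((rfC eps (B.q a) (u : Q))⁻¹ * g' * (sg B a s)⁻¹)) * (sg B a s)⁻¹⁻¹)) * (wC B a b ^ n)⁻¹ =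
              (rfC eps (B.q a) (y : Q))⁻¹ * (g' * wC B a b ^ (-n)) := by
            rw [zpow_neg]; group
          rwa [e] at h5)
        have he' : rfC eps (B.q a) (u' : Q) * wC B a b ^ n = g' := by
          rw [he, zpow_neg, inv_mul_cancel_right]
        obtain ⟨m, hm, i, hxe⟩ := hx
        obtain ⟨r, hr⟩ := cross_ex u u' ⟨h0, hu', i, m, hm, by
          show rfC eps (B.q a) (u' : Q) * wC B a b ^ n = _
          rw [he', mul_assoc, ← hxe, mul_inv_cancel_left]⟩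
        refine ⟨u', Or.inr hu', ?_, r, hr⟩
        rw [PF_1 (hdis u' hu'), he']
    · have hyu : Sh D (y : Q) (u : Q) := by
        rcases hu with hu | hu
        · exact absurd hu h0
        · exact hu
      rw [PF_1 h0] at hp
      cases β' with
      | true =>
        have hq : (rfC eps (B.q a) (u : Q) * wC B a b ^ n)⁻¹ * g' ∈ SI B a b eps D z k := hp
        have hq' := Ct.SI_conj H hq n
        obtain ⟨r, hI, hx, he⟩ := hX.inn u hu _ hq'
        obtain ⟨hsh, -⟩ := hX.inner r hI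
        have hsh' : Sh D (u : Q) (((T.X c').y r : {v // v ∈ F}) : Q) := by
          rw [hx] at hsh
          exact hsh
        refine ⟨(T.X c').y r, hX.yY r, ?_, r, Or.inl ⟨hx, rfl⟩⟩
        rw [PF_1 (hdis _ (hyu.trans hsh'))]
        have he' : rfC eps (B.q a) (((T.X c').y r : {v // v ∈ F}) : Q) * wC B a b ^ n = g' := by
          rw [he, zpow_neg]
          group
        rw [he']
      | false =>
        have hx : ((rfC eps (B.q a) (u : Q) * wC B a b ^ n)⁻¹ * g')⁻¹ ∈ XsC B a b D z k s := hp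
        have hxD := XsC_D H hs hx
        have h1 := Ct.rf_sh H hyu
        obtain ⟨u', hu', he⟩ := ex_sh H hF v (g := g') (by
          have h2 : (rfC eps (B.q a) (y : Q))⁻¹ * rfC eps (B.q a) (u : Q) ∈ D := h1
          have h3 := H.nD.conj_mem _ h2 (wC B a b ^ n)⁻¹
          have h4 := D.mul_mem hj h3
          have h5 := H.nD.conj_mem _ h4 (sg B a s)
          have h6 := D.mul_mem h5 (D.inv_mem hxD)
          have e : sg B a s * ((rfC eps (B.q a) (v : Q) * sg B a s)⁻¹ *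
              (rfC eps (B.q a) (y : Q) * wC B a b ^ n) * ((wC B a b ^ n)⁻¹ *
              ((rfC eps (B.q a) (y : Q))⁻¹ * rfC eps (B.q a) (u : Q)) * (wC B a b ^ n)⁻¹⁻¹)) * (sg B a s)⁻¹ *
              (((rfC eps (B.q a) (u : Q) * wC B a b ^ n)⁻¹ * g')⁻¹ * (sg B a s)⁻¹)⁻¹ =
              (rfC eps (B.q a) (v : Q))⁻¹ * g' := by
            group
          rwa [e] at h6)
        obtain ⟨m, hm, i, hxe⟩ := hx
        obtain ⟨r, hr⟩ := cross_ex u' u ⟨hu', hyu, i, m, hm, by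
          show rfC eps (B.q a) (u : Q) * wC B a b ^ n = rfC eps (B.q a) (u' : Q) * m * _
          rw [mul_assoc, ← hxe, he]
          group⟩
        refine ⟨u', Or.inl hu', ?_, r, hr.symm⟩
        rw [PF_0 hu', he]
  · intro u u' _ _ h1
    have key : rfC eps (B.q a) (u : Q) = rfC eps (B.q a) (u' : Q) := by
      by_cases h2 : Sh D (v : Q) (u : Q) <;> by_cases h3 : Sh D (v : Q) (u' : Q)
      · rw [PF_0 h2, PF_0 h3] at h1
        exact congrArg Prod.snd h1
      · rw [PF_0 h2, PF_1 h3] at h1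
        exact absurd (congrArg Prod.fst h1) (by simp)
      · rw [PF_1 h2, PF_0 h3] at h1
        exact absurd (congrArg Prod.fst h1) (by simp)
      · rw [PF_1 h2, PF_1 h3] at h1
        exact mul_right_cancel (congrArg Prod.snd h1)
    exact Subtype.ext (Small.rf_inj H hW hF.disj u.2 u'.2 key)
  · intro u
    by_cases h2 : Sh D (v : Q) (u : Q)
    · rw [PF_0 h2]
      exact Plc.eps_rf H _
    · rw [PF_1 h2]
      show eps (rfC eps (B.q a) (u : Q) * wC B a b ^ n) = 1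
      rw [map_mul, Plc.eps_rf H, Plc.eps_wz H, one_mul]
  · intro u
    by_cases h2 : Sh D (v : Q) (u : Q)
    · rw [PF_0 h2]
      exact Plc.lnU_rf H _
    · rw [PF_1 h2]
      show lnU H.up (rfC eps (B.q a) (u : Q) * wC B a b ^ n) = _
      rw [Plc.lnU_w H (Plc.eps_rf H _), Plc.lnU_rf H]

/-- The codes for one sheet. -/
theorem codN {c W : ℕ} {x : Q} (hF : FrC H.up D k c W x F) (hW : 1 ≤ W) {T : Pth H F} {c' : T.C} {s : B.L}
    (hs : eps (B.q s) = -1) {n : ℤ} {v : {v // v ∈ F}} {h : ℕ}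
    (hX : FamX H _ _ (T.X c') s n (MsC B a b D z k s) (fun u => Sh D (v : Q) (u : Q))
      (fun u => Sh D (v : Q) (u : Q)) (T.wd c') (T.In c') h)
    (hσ : sg B a s * wC B a b ^ (-n) ∈ D) :
    Cod (mvN H hs n) T c' (fun u => Sh D (v : Q) (u : Q)) (fun u => ((), rfC eps (B.q a) (u : Q))) := by
  have hYY : ∀ u : {v // v ∈ F}, (Sh D (v : Q) (u : Q) ∨ Sh D (v : Q) (u : Q)) → Sh D (v : Q) (u : Q) := fun u h1 =>
    h1.elim id id
  have hcr : ∀ u u' : {v // v ∈ F}, Crs H (fun v : {v // v ∈ F} => (v : Q)) s n (MsC B a b D z k s)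
      (fun u => Sh D (v : Q) (u : Q)) (fun u => Sh D (v : Q) (u : Q)) u u' →
      Stp (mvN H hs n) ((), rfC eps (B.q a) (u : Q)) ((), rfC eps (B.q a) (u' : Q)) := by
    rintro u u' ⟨h0, h1, i, m, hm, he⟩
    refine Or.inr (Or.inl ⟨m, hm, i, ?_⟩)
    rw [mul_assoc, he]
    group
  refine ⟨?_, ?_, ?_, ?_, ?_⟩
  · intro r
    refine ⟨hYY _ (hX.xY r), hYY _ (hX.yY r), ?_⟩
    by_cases hI : T.In c' r
    · obtain ⟨hsh, q, hq, he⟩ := hX.inner r hI
      refine Or.inl ?_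
      dsimp only
      rw [he, inv_mul_cancel_left]
      exact hq
    · rcases hX.cross r hI with h1 | h1
      · exact hcr _ _ h1
      · exact stp_symm (hcr _ _ h1)
  · intro u hu p hp
    obtain ⟨β', g'⟩ := p
    -- the strand `g'` is in the sheet
    have hg' : ∀ g' : Q, (rfC eps (B.q a) (u : Q))⁻¹ * g' ∈ D → ∃ u' : {v // v ∈ F}, Sh D (v : Q) (u' : Q) ∧
        rfC eps (B.q a) (u' : Q) = g' := by
      intro g' h1
      obtain ⟨u', hu', he⟩ := ex_sh H hF u h1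
      exact ⟨u', hu.trans hu', he⟩
    have hXD : ∀ g : Q, g * wC B a b ^ n ∈ XsC B a b D z k s → g ∈ D := by
      intro g hg
      have h1 := D.mul_mem (XsC_D H hs hg) hσ
      have e : g * wC B a b ^ n * (sg B a s)⁻¹ * (sg B a s * wC B a b ^ (-n)) = g := by
        rw [zpow_neg]; group
      rwa [e] at h1
    rcases hp with hq | hq | hq
    · obtain ⟨r, hI, hx, he⟩ := hX.inn u (Or.inl hu) _ hq
      have he' : rfC eps (B.q a) (((T.X c').y r : {v // v ∈ F}) : Q) = g' := by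
        rw [he]
        exact mul_inv_cancel_left _ _
      exact ⟨(T.X c').y r, hYY _ (hX.yY r), by rw [he'], r, Or.inl ⟨hx, rfl⟩⟩
    · have hq' : (rfC eps (B.q a) (u : Q))⁻¹ * g' * wC B a b ^ n ∈ XsC B a b D z k s := hq
      obtain ⟨u', hu', he⟩ := hg' g' (hXD _ hq')
      obtain ⟨m, hm, i, hxe⟩ := hq'
      obtain ⟨r, -, hr⟩ := hX.crs u u' ⟨hu, hu', i, m, hm, by
        show rfC eps (B.q a) (u' : Q) * wC B a b ^ n = rfC eps (B.q a) (u : Q) * m * _
        rw [he, mul_assoc (rfC eps (B.q a) (u : Q)) m, ← hxe]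
        group⟩
      exact ⟨u', hu', by rw [he], r, hr⟩
    · have hq' : ((rfC eps (B.q a) (u : Q))⁻¹ * g')⁻¹ * wC B a b ^ n ∈ XsC B a b D z k s := hq
      have h1 := D.inv_mem (hXD _ hq')
      rw [inv_inv] at h1
      obtain ⟨u', hu', he⟩ := hg' g' h1
      obtain ⟨m, hm, i, hxe⟩ := hq'
      obtain ⟨r, -, hr⟩ := hX.crs u' u ⟨hu', hu, i, m, hm, by
        show rfC eps (B.q a) (u : Q) * wC B a b ^ n = rfC eps (B.q a) (u' : Q) * m * _
        rw [he, mul_assoc g' m, ← hxe]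
        group⟩
      exact ⟨u', hu', by rw [he], r, hr.symm⟩
  · intro u u' _ _ h1
    exact Subtype.ext (Small.rf_inj H hW hF.disj u.2 u'.2 (congrArg Prod.snd h1))
  · intro u
    exact Plc.eps_rf H _
  · intro u
    exact Plc.lnU_rf H _

end far

end Cnt

end Pool.Agent.Lib.MP_688fd0_co.SQ4.CV
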