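import Pool.Agent.Lib.MP_688fd0_co.SQ4.H53.CodX

/-!
COUNTX and NEART.
-/

set_option autoImplicit false

namespace Pool.Agent.Lib.MP_688fd0_co.SQ4.CV

open Pool.Agent.Lib.MP_688fd0_co.OSF Pool.Agent.Lib.MP_688fd0_co.SQ2 Pool.Agent.Lib.MP_688fd0_co.SQ3
open Pool.Agent.Lib.MP_688fd0_co.SQ4

namespace Cnt

theorem lamC_ge (σ k c : ℕ) : 100 * (c + 1) ≤ lamC σ k c := by
  unfold lamC
  refine Nat.mul_le_mul_right _ ?_
  have h1 : 7 ≤ (σ + k + 20) ^ 4 := by
    have h2 : 20 ^ 4 ≤ (σ + k + 20) ^ 4 := Nat.pow_le_pow_left (by omega) 4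
    omega
  exact le_trans (by norm_num) (Nat.pow_le_pow_right (by norm_num) h1)

section

variable {Q : Type} [Group Q] {B : Lb.{0, 0} Q} {a b : B.L}
  {eps : Q →* ℤˣ} {D : Subgroup Q} {z : Q} {k : ℕ} (H : HypC B a b eps D z k)

include H

theorem rf_U2 {y : Q} (hy : eps y = 1) (o : ℤ) :
    ∃ m : ℤ, 2 * |m| ≤ |o| + 1 ∧ rfC eps (B.q a) ((H.up.U ^ o) y) = y * wC B a b ^ m := by
  rcases Int.even_or_odd' o with ⟨m, rfl | rfl⟩
  · refine ⟨m, by rw [abs_mul]; norm_num, ?_⟩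
    rw [Ct.U_even H hy]
    unfold rfC
    rw [if_pos]
    rw [map_mul, map_zpow, Ct.eps_w H, one_zpow, hy, one_mul]
  · refine ⟨m, ?_, ?_⟩
    · rcases abs_cases m with h | h <;> rcases abs_cases (2 * m + 1) with h' | h' <;> omega
    · have h1 : eps (y * wC B a b ^ m) = 1 := by rw [map_mul, map_zpow, Ct.eps_w H, one_zpow, hy, one_mul]
      have h2 : (H.up.U ^ (2 * m + 1)) y = y * wC B a b ^ m * B.q a := by
        rw [add_comm, zpow_add, Equiv.Perm.mul_apply, Ct.U_even H hy, zpow_one, H31.C_U_one H h1]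
      rw [h2]
      unfold rfC
      rw [if_neg, mul_inv_cancel_right]
      rw [map_mul, h1, H.ea]
      decide

/-- A strand in the frontier at a short word. -/
theorem shrt_strand {c W : ℕ} {x : Q} {F : Finset Q} (hF : FrC H.up D k c W x F) {m : ℕ} (hm : m ≤ 4) {g : Q}
    (hg : Plc.Shrt B D m g) : ∃ o : ℤ, |o| ≤ c ∧ (H.up.U ^ o) (x * g) ∈ F := by
  obtain ⟨l, hl, hlD⟩ := hg
  refine Ct.shF H hF (l := l) (hl.trans hm) ?_
  have := fin_tr (B := B) x 1 l
  rw [mul_one] at this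
  rw [this]
  have e : (x * B.fin 1 l)⁻¹ * (x * g) = (B.fin 1 l)⁻¹ * g := by group
  rw [e]
  exact hlD

/-- The level of the strands `x`, `s₁`, `s₂`. -/
theorem strand_lev {c W : ℕ} (hW : 100 * (c + 1) ≤ W) {x v : Q} {F : Finset Q} (hx : eps x = 1)
    (hF : FrC H.up D k c W x F) (hvF : v ∈ F) (hv : v = x ∨ Ed B a b eps D z k (c + 2) x v) :
    ∃ (g : Q) (m : ℤ), eps g = 1 ∧ Plc.Shrt B D 2 g ∧ rfC eps (B.q a) v = x * g * wC B a b ^ m ∧ 2 * |m| ≤ c + 1 := by
  have key : ∀ (g : Q) (m : ℤ), eps g = 1 → Plc.Shrt B D 2 g → rfC eps (B.q a) v = x * g * wC B a b ^ m →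
      |m| ≤ ((c + 2 : ℕ) : ℤ) → 2 * |m| ≤ c + 1 := by
    intro g m hg hgs he hm
    obtain ⟨o, ho, hoF⟩ := shrt_strand H hF (by norm_num) hgs
    have hxg : eps (x * g) = 1 := by rw [map_mul, hx, hg, one_mul]
    have h1 := Small.rf_U H v
    rw [he, ← Ct.U_even H hxg, ← zpow_natCast, ← Equiv.Perm.mul_apply, ← zpow_add] at h1
    have h2 := Small.ee_le (eps := eps) v
    have h3 : (H.up.U ^ (o - ((eeC eps v : ℤ) + 2 * m))) v = (H.up.U ^ o) (x * g) := by
      have h5 := congrArg (H.up.U ^ (o - ((eeC eps v : ℤ) + 2 * m))) h1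
      rw [← Equiv.Perm.mul_apply, ← zpow_add, sub_add_cancel] at h5
      exact h5.symm
    have h4 := hF.disj v hvF (o - ((eeC eps v : ℤ) + 2 * m)) (by
      push_cast at hm
      rw [abs_le] at ho hm ⊢
      constructor <;> omega) (by rw [h3]; exact hoF)
    rw [abs_le] at ho
    rcases abs_cases m with h5 | h5 <;> omega
  rcases hv with rfl | hv
  · refine ⟨1, 0, map_one _, Plc.shrt_one 2, ?_, by simp; omega⟩
    rw [zpow_zero, mul_one, mul_one]
    exact if_pos hx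
  · rcases hv with ⟨q, hq, rfl⟩ | ⟨l, n, i, hl, hn, h⟩
    · refine ⟨q, 0, Ct.eps_Gn H (Or.inl hq), Plc.shrt_gn H (Or.inl hq), ?_, by simp; omega⟩
      rw [zpow_zero, mul_one]
      exact if_pos (by rw [map_mul, hx, Ct.eps_Gn H (Or.inl hq), one_mul])
    · rcases h with h | h
      · have hG : wC B a b ^ i * sg B a l * wC B a b ^ (-i) ∈ Ct.Gn B a b eps D z k := Or.inr ⟨l, i, hl, Or.inl rfl⟩
        have e : rfC eps (B.q a) v = x * (wC B a b ^ i * sg B a l * wC B a b ^ (-i)) * wC B a b ^ (-n) := by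
          rw [← h, zpow_neg, mul_inv_cancel_right]
        exact ⟨_, -n, Ct.eps_Gn H hG, Plc.shrt_gn H hG, e, key _ (-n) (Ct.eps_Gn H hG) (Plc.shrt_gn H hG) e (by
          rw [abs_neg]; exact hn)⟩
      · have hG : (wC B a b ^ i * sg B a l * wC B a b ^ (-i))⁻¹ ∈ Ct.Gn B a b eps D z k :=
          Or.inr ⟨l, i, hl, Or.inr rfl⟩
        have hG' := Ct.Gn_conj H hG n
        have e : rfC eps (B.q a) v = x * (wC B a b ^ n * (wC B a b ^ i * sg B a l * wC B a b ^ (-i))⁻¹ *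
            wC B a b ^ (-n)) * wC B a b ^ n := by
          have h1 : rfC eps (B.q a) v = x * wC B a b ^ n * (wC B a b ^ i * sg B a l * wC B a b ^ (-i))⁻¹ := by
            rw [h, mul_inv_cancel_right]
          rw [h1, zpow_neg]
          group
        exact ⟨_, n, Ct.eps_Gn H hG', Plc.shrt_gn H hG', e, key _ n (Ct.eps_Gn H hG') (Plc.shrt_gn H hG') e hn⟩

/-- A join at `v`, first side. -/
theorem join0 {c W : ℕ} (hW : 100 * (c + 1) ≤ W) {x v : Q} {F : Finset Q} (hx : eps x = 1)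
    (hF : FrC H.up D k c W x F) (hvF : v ∈ F) (hv : v = x ∨ Ed B a b eps D z k (c + 2) x v) {s : B.L}
    (hs : EffL B a b eps D z k s) : ∃ y ∈ F, ∃ n : ℤ, |n| ≤ ((c + 2 : ℕ) : ℤ) ∧
      (rfC eps (B.q a) v * sg B a s)⁻¹ * (rfC eps (B.q a) y * wC B a b ^ n) ∈ D := by
  obtain ⟨g, m, hg, hgs, he, hm⟩ := strand_lev H hW hx hF hvF hv
  have hG : wC B a b ^ m * sg B a s * wC B a b ^ (-m) ∈ Ct.Gn B a b eps D z k := Or.inr ⟨s, m, hs, Or.inl rfl⟩
  obtain ⟨o, ho, hoF⟩ := shrt_strand H hF (by norm_num) (Plc.shrt_mul H hgs (Plc.shrt_gn H hG))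
  have hP : eps (x * (g * (wC B a b ^ m * sg B a s * wC B a b ^ (-m)))) = 1 := by
    rw [map_mul, map_mul, hx, hg, Ct.eps_Gn H hG]; rfl
  obtain ⟨m', hm', hrf⟩ := rf_U2 H hP o
  refine ⟨_, hoF, m - m', ?_, ?_⟩
  · push_cast
    rw [abs_le] at ho ⊢
    rcases abs_cases m with h1 | h1 <;> rcases abs_cases m' with h2 | h2 <;> rcases abs_cases o with h3 | h3 <;>
      constructor <;> omega
  · rw [hrf, he]
    have e : (x * g * wC B a b ^ m * sg B a s)⁻¹ * (x * (g * (wC B a b ^ m * sg B a s * wC B a b ^ (-m))) *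
        wC B a b ^ m' * wC B a b ^ (m - m')) = 1 := by
      rw [mul_assoc (x * _) (wC B a b ^ m'), ← zpow_add, add_sub_cancel, zpow_neg]
      group
    rw [e]
    exact D.one_mem

/-- A join at `v`, second side. -/
theorem join1 {c W : ℕ} (hW : 100 * (c + 1) ≤ W) {x v : Q} {F : Finset Q} (hx : eps x = 1)
    (hF : FrC H.up D k c W x F) (hvF : v ∈ F) (hv : v = x ∨ Ed B a b eps D z k (c + 2) x v) {s : B.L}
    (hs : EffL B a b eps D z k s) : ∃ y ∈ F, ∃ n : ℤ, |n| ≤ ((c + 2 : ℕ) : ℤ) ∧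
      (rfC eps (B.q a) y * sg B a s)⁻¹ * (rfC eps (B.q a) v * wC B a b ^ n) ∈ D := by
  obtain ⟨g, m, hg, hgs, he, hm⟩ := strand_lev H hW hx hF hvF hv
  have hG : (wC B a b ^ m * sg B a s * wC B a b ^ (-m))⁻¹ ∈ Ct.Gn B a b eps D z k := Or.inr ⟨s, m, hs, Or.inr rfl⟩
  obtain ⟨o, ho, hoF⟩ := shrt_strand H hF (by norm_num) (Plc.shrt_mul H hgs (Plc.shrt_gn H hG))
  have hP : eps (x * (g * (wC B a b ^ m * sg B a s * wC B a b ^ (-m))⁻¹)) = 1 := by
    rw [map_mul, map_mul, hx, hg, Ct.eps_Gn H hG]; rfl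
  obtain ⟨m', hm', hrf⟩ := rf_U2 H hP o
  refine ⟨_, hoF, m' - m, ?_, ?_⟩
  · push_cast
    rw [abs_le] at ho ⊢
    rcases abs_cases m with h1 | h1 <;> rcases abs_cases m' with h2 | h2 <;> rcases abs_cases o with h3 | h3 <;>
      constructor <;> omega
  · rw [hrf, he]
    have h1 := Ct.comm_mem H (Ct.eps_sg H hs.1) (m - m')
    have e : (sg B a s)⁻¹ * (wC B a b ^ (m - m') * sg B a s * wC B a b ^ (-(m - m'))) =
        (x * (g * (wC B a b ^ m * sg B a s * wC B a b ^ (-m))⁻¹) * wC B a b ^ m' * sg B a s)⁻¹ *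
        (x * g * wC B a b ^ m * wC B a b ^ (m' - m)) := by
      have e1 : wC B a b ^ (m - m') = (wC B a b ^ m')⁻¹ * wC B a b ^ m := by
        rw [← zpow_neg, ← zpow_add, neg_add_eq_sub]
      have e2 : wC B a b ^ (-(m - m')) = wC B a b ^ (m' - m) := by rw [neg_sub]
      rw [e2, e1, zpow_neg]
      group
    rwa [e] at h1

end

section

variable {Q : Type} [Group Q] [DecidableEq Q] {B : Lb.{0, 0} Q} {a b : B.L}
  {eps : Q →* ℤˣ} {D : Subgroup Q} {z : Q} {k : ℕ} (H : HypC B a b eps D z k)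

omit [DecidableEq Q] in
/-- The level of a near reflection. -/
theorem near_lev {s : B.L} (hn : (B.q a)⁻¹ * B.q s ∈ D ∨ (B.q b)⁻¹ * B.q s ∈ D) (H : HypC B a b eps D z k) :
    ∃ n : ℤ, (n = 0 ∨ n = -1) ∧ sg B a s * wC B a b ^ (-n) ∈ D := by
  rcases hn with h | h
  · refine ⟨0, Or.inl rfl, ?_⟩
    have h1 := H.nD.conj_mem _ h (B.q a)
    have e : B.q a * ((B.q a)⁻¹ * B.q s) * (B.q a)⁻¹ = sg B a s * wC B a b ^ (-(0 : ℤ)) := by
      unfold sg
      rw [neg_zero, zpow_zero]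
      group
    rwa [e] at h1
  · refine ⟨-1, Or.inr rfl, ?_⟩
    have h1 := H.nD.conj_mem _ h (B.q b)
    have e : B.q b * ((B.q b)⁻¹ * B.q s) * (B.q b)⁻¹ = sg B a s * wC B a b ^ (-(-1 : ℤ)) := by
      unfold sg wC
      rw [neg_neg, zpow_one]
      group
    rwa [e] at h1

omit [DecidableEq Q] in
theorem near_join' (H : HypC B a b eps D z k) {s : B.L} {n : ℤ} (hσ : sg B a s * wC B a b ^ (-n) ∈ D) (u : Q) :
    (u * sg B a s)⁻¹ * (u * wC B a b ^ n) ∈ D := by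
  have h1 := H.nD.conj_mem _ (D.inv_mem hσ) (sg B a s)⁻¹
  have e : (sg B a s)⁻¹ * (sg B a s * wC B a b ^ (-n))⁻¹ * (sg B a s)⁻¹⁻¹ =
      (u * sg B a s)⁻¹ * (u * wC B a b ^ n) := by
    rw [zpow_neg]; group
  rwa [e] at h1

include H

omit [DecidableEq Q] in
/-- Far reflections join different sheets. -/
theorem far_ne {W c : ℕ} (hS : SinkU H.up D W) (hW : 100 * (c + 1) ≤ W) {s : B.L}
    (hf : ¬ ((B.q a)⁻¹ * B.q s ∈ D ∨ (B.q b)⁻¹ * B.q s ∈ D)) {n : ℤ} (hn : |n| ≤ ((c + 2 : ℕ) : ℤ)) {v y : Q}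
    (h : (rfC eps (B.q a) v * sg B a s)⁻¹ * (rfC eps (B.q a) y * wC B a b ^ n) ∈ D) : ¬ Sh D v y := by
  intro h1
  obtain ⟨h2, h3⟩ := Ct.near_join H hS (N := c + 2) (by omega) hn h1 h
  apply hf
  rcases h2 with rfl | rfl
  · left
    rw [zpow_zero, inv_one, mul_one] at h3
    exact Ct.memA H h3
  · right
    have e4 : sg B a s * (wC B a b ^ (-1 : ℤ))⁻¹ = B.q s * (B.q b)⁻¹ := by
      unfold sg wC
      group
    rw [e4] at h3
    exact Ct.memB H h3

omit [DecidableEq Q] H in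
theorem SI_EI {q : Q} (hq : q ∈ SI B a b eps D z k) : q ∈ EI B a b eps D z k := Subgroup.subset_closure hq

/-- The component has at least three elements, one sheet. -/
theorem three_N [Fintype Q] {s : B.L} (hs : EffL B a b eps D z k s) {n : ℤ} (hn : n = 0 ∨ n = -1) :
    3 ≤ (VV (mvN H hs.1 n) ()).card := by
  classical
  obtain ⟨t, ht⟩ := H.rot
  have htS : B.q t ∈ SI B a b eps D z k := mem_SI_rot ht
  have hσ : sg B a s * wC B a b ^ (-n) ∉ EI B a b eps D z k := by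
    rcases hn with rfl | rfl
    · rw [neg_zero, zpow_zero, mul_one]
      exact hs.2.1
    · have e4 : sg B a s * wC B a b ^ (-(-1 : ℤ)) = B.q s * (B.q b)⁻¹ := by
        unfold sg wC
        rw [neg_neg, zpow_one]
        group
      rw [e4]
      exact hs.2.2
  have h1 : ((), (1 : Q)) ∈ VV (mvN H hs.1 n) () := (mem_VV _).2 Relation.ReflTransGen.refl
  have h2 : ((), B.q t) ∈ VV (mvN H hs.1 n) () := by
    refine (mem_VV _).2 (Relation.ReflTransGen.single (Or.inl ?_))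
    dsimp only
    rw [inv_one, one_mul]
    exact htS
  have h3 : ((), sg B a s * wC B a b ^ (-n)) ∈ VV (mvN H hs.1 n) () := by
    refine (mem_VV _).2 (Relation.ReflTransGen.single (Or.inr (Or.inl ?_)))
    dsimp only
    rw [inv_one, one_mul, zpow_neg, inv_mul_cancel_right]
    exact sg_XsC
  have h4 : ({((), (1 : Q)), ((), B.q t), ((), sg B a s * wC B a b ^ (-n))} : Finset (Unit × Q)) ⊆
      VV (mvN H hs.1 n) () := by
    intro p hp
    rw [Finset.mem_insert, Finset.mem_insert, Finset.mem_singleton] at hp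
    rcases hp with rfl | rfl | rfl
    · exact h1
    · exact h2
    · exact h3
  refine le_trans ?_ (Finset.card_le_card h4)
  rw [Finset.card_insert_of_notMem, Finset.card_pair]
  · intro h
    have h5 := congrArg Prod.snd h
    dsimp only at h5
    rw [← h5] at hσ
    exact hσ (SI_EI htS)
  · rw [Finset.mem_insert, Finset.mem_singleton]
    rintro (h | h)
    · exact B.ne_one t (congrArg Prod.snd h).symm
    · have h5 := congrArg Prod.snd h
      dsimp only at h5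
      rw [← h5] at hσ
      exact hσ (Subgroup.one_mem _)

/-- The component has at least three elements, two sheets. -/
theorem three_F [Fintype Q] {s : B.L} (hs : eps (B.q s) = -1) : 3 ≤ (VV (mvF (D := D) (k := k) H hs) false).card := by
  classical
  obtain ⟨t, ht⟩ := H.rot
  have htS : B.q t ∈ SI B a b eps D z k := mem_SI_rot ht
  have h1 : (false, (1 : Q)) ∈ VV (mvF H hs) false := (mem_VV _).2 Relation.ReflTransGen.refl
  have h2 : (false, B.q t) ∈ VV (mvF H hs) false := by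
    refine (mem_VV _).2 (Relation.ReflTransGen.single ?_)
    show (1 : Q)⁻¹ * B.q t ∈ SI B a b eps D z k
    rw [inv_one, one_mul]
    exact htS
  have h3 : (true, sg B a s) ∈ VV (mvF H hs) false := by
    refine (mem_VV _).2 (Relation.ReflTransGen.single ?_)
    show (1 : Q)⁻¹ * sg B a s ∈ XsC B a b D z k s
    rw [inv_one, one_mul]
    exact sg_XsC
  have h4 : ({(false, (1 : Q)), (false, B.q t), (true, sg B a s)} : Finset (Bool × Q)) ⊆
      VV (mvF H hs) false := by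
    intro p hp
    rw [Finset.mem_insert, Finset.mem_insert, Finset.mem_singleton] at hp
    rcases hp with rfl | rfl | rfl
    · exact h1
    · exact h2
    · exact h3
  refine le_trans ?_ (Finset.card_le_card h4)
  rw [Finset.card_insert_of_notMem, Finset.card_pair]
  · intro h
    exact absurd (congrArg Prod.fst h) (by simp)
  · rw [Finset.mem_insert, Finset.mem_singleton]
    rintro (h | h)
    · exact B.ne_one t (congrArg Prod.snd h).symm
    · exact absurd (congrArg Prod.fst h) (by simp)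

omit [DecidableEq Q] in
theorem card_D : Nat.card D ≤ k := Nat.le_of_dvd H.kpos H.card

omit [DecidableEq Q] in
theorem card_N [Fintype Q] {s : B.L} (hs : eps (B.q s) = -1) {n : ℤ} (hσ : sg B a s * wC B a b ^ (-n) ∈ D) :
    (VV (mvN H hs n) ()).card ≤ k := by
  have hXD : ∀ g : Q, g * wC B a b ^ n ∈ XsC B a b D z k s → g ∈ D := by
    intro g hg
    have h1 := D.mul_mem (XsC_D H hs hg) hσ
    have e : g * wC B a b ^ n * (sg B a s)⁻¹ * (sg B a s * wC B a b ^ (-n)) = g := by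
      rw [zpow_neg]; group
    rwa [e] at h1
  have h := card_VV (M := mvN H hs n) (card_D H) () (fun _ => (1 : Q)) rfl (by
    intro β β' g hg
    rw [one_mul, inv_one, mul_one]
    rcases hg with hg | hg | hg
    · exact Ct.SI_mem H hg
    · exact hXD g hg
    · have h1 := D.inv_mem (hXD _ hg)
      rwa [inv_inv] at h1)
  rwa [Fintype.card_unit, one_mul] at h

omit [DecidableEq Q] in
theorem card_F [Fintype Q] {s : B.L} (hs : eps (B.q s) = -1) : (VV (mvF (D := D) (k := k) H hs) false).card ≤ 2 * k := by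
  have h := card_VV (M := mvF (D := D) (k := k) H hs) (card_D H) false
    (fun β => match β with | false => (1 : Q) | true => sg B a s) rfl (by
    intro β β' g hg
    cases β <;> cases β'
    · show 1 * g * (1 : Q)⁻¹ ∈ D
      rw [one_mul, inv_one, mul_one]
      exact Ct.SI_mem H hg
    · show 1 * g * (sg B a s)⁻¹ ∈ D
      rw [one_mul]
      exact XsC_D H hs hg
    · show sg B a s * g * (1 : Q)⁻¹ ∈ D
      rw [inv_one, mul_one]
      have h1 := D.inv_mem (XsC_D H hs (show g⁻¹ ∈ XsC B a b D z k s from hg))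
      rwa [mul_inv_rev, inv_inv, inv_inv] at h1
    · show sg B a s * g * (sg B a s)⁻¹ ∈ D
      exact H.nD.conj_mem _ (Ct.SI_mem H hg) _)
  rwa [Fintype.card_bool] at h

end

end Cnt

open Cnt in
/-- COUNTX. -/
theorem countX : CountXS := by
  intro Q _ _ B a b eps D z k H c W hS _ _ hW d cl N x s₁ s₂ F rk hC T h hT p hp h4 s hs
  have hfin := H.fin
  have _i : Fintype Q := Fintype.ofFinite Q
  have hW' : 100 * (c + 1) ≤ W := (lamC_ge _ _ _).trans hW
  have hW1 : 1 ≤ W := by omega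
  have hk := H.kpos
  have hθ : ∀ y, (wcl cl d false : Q → ZMod p) (H.up.U y) = wcl cl d false y := wcl_line H hC.d_line hC.c_line false
  -- strands on the lines of the class `false`
  have hcov : ∀ y, cl y = false → ∃ (i : Fin N) (v₀ : {v // v ∈ F i}),
      ((v₀ : Q) = x i ∨ (v₀ : Q) = s₁ i ∨ (v₀ : Q) = s₂ i) ∧
      ((v₀ : Q) = x i ∨ Ed B a b eps D z k (c + 2) (x i) (v₀ : Q)) ∧ lnU H.up y = lnU H.up (v₀ : Q) := by
    intro y hy
    obtain ⟨i, hi | hi | hi⟩ := hC.cov y hy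
    · exact ⟨i, ⟨x i, (hC.fr i).fx⟩, Or.inl rfl, Or.inl rfl, hi⟩
    · exact ⟨i, ⟨s₁ i, hC.f₁ i⟩, Or.inr (Or.inl rfl), Or.inr (hC.e₁ i), hi⟩
    · exact ⟨i, ⟨s₂ i, hC.f₂ i⟩, Or.inr (Or.inr rfl), Or.inr (hC.e₂ i), hi⟩
  by_cases hn : (B.q a)⁻¹ * B.q s ∈ D ∨ (B.q b)⁻¹ * B.q s ∈ D
  · -- one sheet
    obtain ⟨n, hn01, hσ⟩ := near_lev hn H
    obtain ⟨y, j, j', hy, hj, hjj, hcj, h1, h2⟩ := place_abs_p H (mvN H hs.1 n) () (three_N H hs hn01) hC.d_line
      hC.c_line hC.one hC.odd p (by have := card_N H hs.1 hσ; omega)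
    obtain ⟨i, v₀, hv₁, hv₂, hl⟩ := hcov _ hcj
    have hjn := near_join' H hσ (rfC eps (B.q a) (v₀ : Q))
    obtain ⟨c', hX⟩ := hT i v₀ v₀ s n (by
      push_cast
      rcases hn01 with rfl | rfl <;> simp <;> omega) hs hjn
    refine ⟨i, c', n, v₀, v₀, v₀, hX, Or.inl (Sh.refl _), hv₁, ?_⟩
    have hye : eps (y * j.2) = 1 := by
      rw [map_mul, hy, rch_ker hj, one_mul]
      exact map_one eps
    obtain ⟨l, hl'⟩ := (Ct.lnU_iff' H hye (Plc.eps_rf H (v₀ : Q))).1 (hl.trans (Plc.lnU_rf H _).symm)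
    exact (codN (hC.fr i) hW1 hs.1 hX hσ).count (Sh.refl _) hθ hj hjj (l := l) (Prod.ext rfl hl') h1 h2
  · -- two sheets
    obtain ⟨y, j, j', hy, hj, hjj, hcj, h1, h2⟩ := place_abs_p H (mvF H hs.1) false (three_F H hs.1) hC.d_line
      hC.c_line hC.one hC.odd p (by have := card_F H hs.1; omega)
    obtain ⟨i, v₀, hv₁, hv₂, hl⟩ := hcov _ hcj
    have hye : eps (y * j.2) = 1 := by
      rw [map_mul, hy, rch_ker hj, one_mul]
      exact map_one eps
    cases hβ : j.1 with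
    | false =>
      obtain ⟨y', hy'F, n, hn', hjn⟩ := join0 H hW' (hC.ex i) (hC.fr i) v₀.2 hv₂ hs
      have hne := far_ne H hS hW' hn hn' hjn
      obtain ⟨c', hX⟩ := hT i v₀ ⟨y', hy'F⟩ s n hn' hs hjn
      refine ⟨i, c', n, v₀, ⟨y', hy'F⟩, v₀, hX, Or.inl (Sh.refl _), hv₁, ?_⟩
      obtain ⟨l, hl'⟩ := (Ct.lnU_iff' H hye (Plc.eps_rf H (v₀ : Q))).1 (hl.trans (Plc.lnU_rf H _).symm)
      exact (codF (hC.fr i) hW1 hs.1 hX hjn hne).count (Or.inl (Sh.refl _)) hθ hj hjj (l := l) (by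
        rw [PF_0 (Sh.refl _), hβ, hl']) h1 h2
    | true =>
      obtain ⟨v', hv'F, n, hn', hjn⟩ := join1 H hW' (hC.ex i) (hC.fr i) v₀.2 hv₂ hs
      have hne := far_ne H hS hW' hn hn' hjn
      obtain ⟨c', hX⟩ := hT i ⟨v', hv'F⟩ v₀ s n hn' hs hjn
      refine ⟨i, c', n, ⟨v', hv'F⟩, v₀, v₀, hX, Or.inr (Sh.refl _), hv₁, ?_⟩
      obtain ⟨l, hl'⟩ := (Ct.lnU_iff' H hye (show eps (rfC eps (B.q a) (v₀ : Q) * wC B a b ^ n) = 1 by
        rw [map_mul, Plc.eps_rf H, Plc.eps_wz H, one_mul])).1 (hl.trans ((Plc.lnU_rf H _).symm.trans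
          (Plc.lnU_w H (Plc.eps_rf H _) n).symm))
      exact (codF (hC.fr i) hW1 hs.1 hX hjn hne).count (Or.inr (Sh.refl _)) hθ hj hjj (l := l) (by
        rw [PF_1 hne, hβ, hl']) h1 h2

end Pool.Agent.Lib.MP_688fd0_co.SQ4.CV
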