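import Pool.Agent.Lib.MP_688fd0_co.SQ4.H53.CountX

/-!
NEART: a strand of the class `true` next to one of the strands `x i`, `s₁ i`, `s₂ i`.
-/

set_option autoImplicit false

namespace Pool.Agent.Lib.MP_688fd0_co.SQ4.CV

open Pool.Agent.Lib.MP_688fd0_co.OSF Pool.Agent.Lib.MP_688fd0_co.SQ2 Pool.Agent.Lib.MP_688fd0_co.SQ3
open Pool.Agent.Lib.MP_688fd0_co.SQ4

namespace Cnt

section

variable {Q : Type} [Group Q] [DecidableEq Q] {B : Lb.{0, 0} Q} {a b : B.L}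
  {eps : Q →* ℤˣ} {D : Subgroup Q} {z : Q} {k : ℕ} (H : HypC B a b eps D z k)

include H

/-- The neighbour of `v₀` through a cross rung of `l`. -/
theorem cross_nb {c W : ℕ} (hS : SinkU H.up D W) (hW : 100 * (c + 1) ≤ W) {x : Q} {F : Finset Q} (hx : eps x = 1)
    (hF : FrC H.up D k c W x F) {T : Pth H F} {h : ℕ} (hT : T.FullM (c + 2) h) {v₀ : {v // v ∈ F}}
    (hv : (v₀ : Q) = x ∨ Ed B a b eps D z k (c + 2) x (v₀ : Q)) {l : B.L} (hl : EffL B a b eps D z k l) {G : Q}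
    (hG : G ∈ XsC B a b D z k l ∨ G⁻¹ ∈ XsC B a b D z k l) :
    ∃ (u : {v // v ∈ F}) (c₁ : T.C) (r : T.Rc c₁), lnU H.up (u : Q) = lnU H.up (rfC eps (B.q a) (v₀ : Q) * G) ∧
      (((T.X c₁).x r = v₀ ∧ (T.X c₁).y r = u) ∨ ((T.X c₁).x r = u ∧ (T.X c₁).y r = v₀)) := by
  have hW1 : 1 ≤ W := by omega
  have hGe : eps G = 1 := by
    rcases hG with hG | hG
    · exact XsC_ker H hl.1 hG
    · have h1 := XsC_ker H hl.1 hG
      rwa [map_inv, inv_eq_one] at h1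
  have hve : eps (rfC eps (B.q a) (v₀ : Q) * G) = 1 := by rw [map_mul, Plc.eps_rf H, hGe, one_mul]
  by_cases hn : (B.q a)⁻¹ * B.q l ∈ D ∨ (B.q b)⁻¹ * B.q l ∈ D
  · obtain ⟨n, hn01, hσ⟩ := near_lev hn H
    have hjn := near_join' H hσ (rfC eps (B.q a) (v₀ : Q))
    obtain ⟨c', hX⟩ := hT v₀ v₀ l n (by
      push_cast
      rcases hn01 with rfl | rfl <;> simp <;> omega) hl hjn
    have hC := codN hF hW1 hl.1 hX hσ
    obtain ⟨m, hm⟩ : ∃ m : ℤ, Stp (mvN H hl.1 n) ((), rfC eps (B.q a) (v₀ : Q))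
        ((), rfC eps (B.q a) (v₀ : Q) * G * wC B a b ^ m) := by
      rcases hG with hG | hG
      · refine ⟨-n, Or.inr (Or.inl ?_)⟩
        have e : ((), rfC eps (B.q a) (v₀ : Q)).2⁻¹ * ((), rfC eps (B.q a) (v₀ : Q) * G * wC B a b ^ (-n)).2 *
            wC B a b ^ n = G := by
          rw [zpow_neg]; group
        rw [e]
        exact hG
      · refine ⟨n, Or.inr (Or.inr ?_)⟩
        have e : (((), rfC eps (B.q a) (v₀ : Q)).2⁻¹ * ((), rfC eps (B.q a) (v₀ : Q) * G * wC B a b ^ n).2)⁻¹ *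
            wC B a b ^ n = wC B a b ^ (-n) * G⁻¹ * wC B a b ^ (- -n) := by
          rw [neg_neg, zpow_neg]; group
        rw [e]
        exact XsC_cj H hG (-n)
    obtain ⟨u, -, hPu, r, hr⟩ := hC.r2 v₀ (Sh.refl _) _ hm
    refine ⟨u, c', r, ?_, hr⟩
    rw [← hC.ln u, hPu]
    exact Plc.lnU_w H hve m
  · rcases hG with hG | hG
    · obtain ⟨y', hy'F, n, hn', hjn⟩ := join0 H hW hx hF v₀.2 hv hl
      have hne := far_ne H hS hW hn hn' hjn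
      obtain ⟨c', hX⟩ := hT v₀ ⟨y', hy'F⟩ l n hn' hl hjn
      have hC := codF hF hW1 hl.1 hX hjn hne
      have hm : Stp (mvF H hl.1) (PF B a b eps D v₀ n v₀) (true, rfC eps (B.q a) (v₀ : Q) * G) := by
        rw [PF_0 (Sh.refl _)]
        show (rfC eps (B.q a) (v₀ : Q))⁻¹ * (rfC eps (B.q a) (v₀ : Q) * G) ∈ XsC B a b D z k l
        rw [inv_mul_cancel_left]
        exact hG
      obtain ⟨u, -, hPu, r, hr⟩ := hC.r2 v₀ (Or.inl (Sh.refl _)) _ hm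
      refine ⟨u, c', r, ?_, hr⟩
      rw [← hC.ln u, hPu]
    · obtain ⟨v', hv'F, n, hn', hjn⟩ := join1 H hW hx hF v₀.2 hv hl
      have hne := far_ne H hS hW hn hn' hjn
      obtain ⟨c', hX⟩ := hT ⟨v', hv'F⟩ v₀ l n hn' hl hjn
      have hC := codF hF hW1 hl.1 hX hjn hne
      have hm : Stp (mvF H hl.1) (PF B a b eps D ⟨v', hv'F⟩ n v₀)
          (false, rfC eps (B.q a) (v₀ : Q) * G * wC B a b ^ n) := by
        rw [PF_1 hne]
        show ((rfC eps (B.q a) (v₀ : Q) * wC B a b ^ n)⁻¹ * (rfC eps (B.q a) (v₀ : Q) * G * wC B a b ^ n))⁻¹ ∈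
          XsC B a b D z k l
        have e : ((rfC eps (B.q a) (v₀ : Q) * wC B a b ^ n)⁻¹ * (rfC eps (B.q a) (v₀ : Q) * G * wC B a b ^ n))⁻¹ =
            wC B a b ^ (-n) * G⁻¹ * wC B a b ^ (- -n) := by
          rw [neg_neg, zpow_neg]; group
        rw [e]
        exact XsC_cj H hG (-n)
      obtain ⟨u, -, hPu, r, hr⟩ := hC.r2 v₀ (Or.inr (Sh.refl _)) _ hm
      refine ⟨u, c', r, ?_, hr⟩
      rw [← hC.ln u, hPu]
      exact Plc.lnU_w H hve n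

end

end Cnt

open Cnt in
/-- NEART. -/
theorem nearT : NearTS := by
  intro Q _ _ B a b eps D z k H c W hS _ _ hW d cl N x s₁ s₂ F rk hC T h hT hγ s hs
  have hW' : 100 * (c + 1) ≤ W := (lamC_ge _ _ _).trans hW
  obtain ⟨y, y', hy, hy', hye, hye', hE⟩ := hC.adj hγ
  obtain ⟨i, v₀, hv₁, hv₂, hl⟩ : ∃ (i : Fin N) (v₀ : {v // v ∈ F i}),
      ((v₀ : Q) = x i ∨ (v₀ : Q) = s₁ i ∨ (v₀ : Q) = s₂ i) ∧
      ((v₀ : Q) = x i ∨ Ed B a b eps D z k (c + 2) (x i) (v₀ : Q)) ∧ lnU H.up y' = lnU H.up (v₀ : Q) := by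
    obtain ⟨i, hi | hi | hi⟩ := hC.cov _ hy'
    · exact ⟨i, ⟨x i, (hC.fr i).fx⟩, Or.inl rfl, Or.inl rfl, hi⟩
    · exact ⟨i, ⟨s₁ i, hC.f₁ i⟩, Or.inr (Or.inl rfl), Or.inr (hC.e₁ i), hi⟩
    · exact ⟨i, ⟨s₂ i, hC.f₂ i⟩, Or.inr (Or.inr rfl), Or.inr (hC.e₂ i), hi⟩
  -- the family of `s`
  obtain ⟨y₁, hy₁F, n, hn, hjn⟩ := join0 H hW' (hC.ex i) (hC.fr i) v₀.2 hv₂ hs
  obtain ⟨c', hX⟩ := hT i v₀ ⟨y₁, hy₁F⟩ s n hn hs hjn
  obtain ⟨j, hj⟩ := (Ct.lnU_iff' H hye' (Plc.eps_rf H (v₀ : Q))).1 (hl.trans (Plc.lnU_rf H _).symm)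
  -- the strand of the class `true`
  have hu : ∃ (u : {v // v ∈ F i}) (c₁ : (T i).C) (r : (T i).Rc c₁), lnU H.up (u : Q) = lnU H.up y ∧
      ((((T i).X c₁).x r = v₀ ∧ ((T i).X c₁).y r = u) ∨ (((T i).X c₁).x r = u ∧ ((T i).X c₁).y r = v₀)) := by
    rcases hE with ⟨q, hq, rfl⟩ | ⟨l, m, hl, hE⟩
    · have hq' := Ct.SI_conj H hq (-j)
      obtain ⟨r, hI, hx, he⟩ := hX.inn v₀ (Or.inl (Sh.refl _)) _ hq'
      refine ⟨((T i).X c').y r, c', r, ?_, Or.inl ⟨hx, rfl⟩⟩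
      rw [← Plc.lnU_rf H, he, hj]
      have e : y' * wC B a b ^ j * (wC B a b ^ (-j) * q * wC B a b ^ (- -j)) = y' * q * wC B a b ^ j := by
        rw [neg_neg, zpow_neg]; group
      rw [e]
      exact Plc.lnU_w H hye j
    · have hxs : wC B a b ^ m * sg B a l * wC B a b ^ (-m) ∈ XsC B a b D z k l :=
        ⟨1, ⟨Subgroup.one_mem _, fun _ => rfl⟩, m, by rw [one_mul]⟩
      obtain ⟨g, hg, he⟩ : ∃ g, (g ∈ XsC B a b D z k l ∨ g⁻¹ ∈ XsC B a b D z k l) ∧ y = y' * g := by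
        rcases hE with hE | hE
        · exact ⟨_, Or.inl hxs, hE⟩
        · exact ⟨(wC B a b ^ m * sg B a l * wC B a b ^ (-m))⁻¹, Or.inr (by rwa [inv_inv]), by
            rw [hE, mul_inv_cancel_right]⟩
      have hg' : wC B a b ^ (-j) * g * wC B a b ^ (- -j) ∈ XsC B a b D z k l ∨
          (wC B a b ^ (-j) * g * wC B a b ^ (- -j))⁻¹ ∈ XsC B a b D z k l := by
        rcases hg with hg | hg
        · exact Or.inl (XsC_cj H hg (-j))
        · right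
          have h1 := XsC_cj H hg (-j)
          have e : (wC B a b ^ (-j) * g * wC B a b ^ (- -j))⁻¹ = wC B a b ^ (-j) * g⁻¹ * wC B a b ^ (- -j) := by
            rw [neg_neg, zpow_neg]; group
          rwa [e]
      obtain ⟨u, c₁, r, hlu, hr⟩ := cross_nb H hS hW' (hC.ex i) (hC.fr i) (hT i) hv₂ hl hg'
      refine ⟨u, c₁, r, ?_, hr⟩
      rw [hlu, hj]
      have e : y' * wC B a b ^ j * (wC B a b ^ (-j) * g * wC B a b ^ (- -j)) = y * wC B a b ^ j := by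
        rw [he, neg_neg, zpow_neg]; group
      rw [e]
      exact Plc.lnU_w H hye j
  obtain ⟨u, c₁, r, hlu, hr⟩ := hu
  refine ⟨i, v₀, u, hv₁, ?_, ⟨c₁, r, hr⟩, c', n, ⟨y₁, hy₁F⟩, hX⟩
  rw [Plc.line_const H hC.c_line hlu]
  exact hy

end Pool.Agent.Lib.MP_688fd0_co.SQ4.CV
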